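import Pool.Agent.H419.TW.Fin
import Pool.Agent.H419.AC.NILM

/-!
# Linnik's asymptotic formula with acceptable local conditions at all primes

Let `K` be a number field and `n ≥ 2` even. The fields `L` of degree `n` over `K` (in the algebraic
closure) which are obtained from `K`, or from `K` or a cubic extension of `K`, by successive Galois
extensions with solvable groups are counted by `|d_L|`. For every prime `𝔭` of `K` let a condition on
the `𝓞_K`-algebra `𝓞_L / 𝔭 𝓞_L` be given, such that, for all but finitely many `𝔭`, the condition holds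
if the nilradical has at most `N 𝔭` elements (the relative discriminant is not divisible by `𝔭 ^ 2`).
The number of these fields which satisfy all conditions, with `|d_L| ≤ X`, is `c X + o(X)`, and
`c > 0` if and only if one quadratic extension `L` of one tower `M` of degree `n / 2` satisfies all
conditions; then the number of ALL fields `L` of degree `n` with these properties is at least `c' X`.
The number of the towers of degree `n` which are at most simply ramified at all primes (those with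
squarefree relative discriminant) is `c X + o(X)`, and `c > 0` if and only if `K` has a tower of degree
`n / 2` which is unramified at all primes.
-/

set_option autoImplicit false
set_option linter.unusedSectionVars false

open Filter NumberField

namespace Pool.Agent.Results.MP_bf81c2_nt.AcceptableConditions

/-- `F ⊆ L`, and `L / F` is a finite Galois extension with solvable Galois group. -/
def SolvableGalois {K : Type} [Field K] (F L : IntermediateField K (AlgebraicClosure K)) : Prop :=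
  ∃ h : F ≤ L, FiniteDimensional F (IntermediateField.extendScalars h) ∧
    IsGalois F (IntermediateField.extendScalars h) ∧
    Group.IsSolvable
      ((IntermediateField.extendScalars h) ≃ₐ[F] (IntermediateField.extendScalars h))

/-- `L` is obtained from a member of `𝓑` by (zero or more) successive solvable Galois extensions. -/
inductive Tower {K : Type} [Field K] (𝓑 : Set (IntermediateField K (AlgebraicClosure K))) :
    IntermediateField K (AlgebraicClosure K) → Prop
  | base (F : IntermediateField K (AlgebraicClosure K)) : F ∈ 𝓑 → Tower 𝓑 F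
  | step (F L : IntermediateField K (AlgebraicClosure K)) :
      Tower 𝓑 F → SolvableGalois F L → Tower 𝓑 L

/-- `L` is a nontrivial solvable Galois extension of a tower `F` above a member of `𝓑`. -/
def Proper {K : Type} [Field K] (𝓑 : Set (IntermediateField K (AlgebraicClosure K))) :
    Set (IntermediateField K (AlgebraicClosure K)) :=
  {L | ∃ F : IntermediateField K (AlgebraicClosure K), Tower 𝓑 F ∧ F ≠ L ∧ SolvableGalois F L}

/-- The two families of bottom fields: `K`, and `K` together with all its cubic extensions. -/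
def Bottoms (K : Type) [Field K] : Set (Set (IntermediateField K (AlgebraicClosure K))) :=
  {𝓑 | 𝓑 = {⊥} ∨ 𝓑 = {F : IntermediateField K (AlgebraicClosure K) |
    F = ⊥ ∨ Module.finrank K F = 3}}

/-- The `𝓞_K`-algebra `𝓞_L / 𝔭 𝓞_L`. -/
abbrev Loc (K : Type) [Field K] (L : Type) [Field L] [Algebra K L] (𝔭 : Ideal (𝓞 K)) : Type :=
  𝓞 L ⧸ 𝔭.map (algebraMap (𝓞 K) (𝓞 L))

/-- A system of local conditions: for each prime `𝔭` of `K` a property of algebras over `𝓞_K`. -/
abbrev LocalSystem (K : Type) [Field K] : Type 1 :=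
  Ideal (𝓞 K) → ∀ (R : Type) [CommRing R] [Algebra (𝓞 K) R], Prop

/-- The conditions depend on the algebras only up to isomorphism. -/
def IsInvariant (K : Type) [Field K] (P : LocalSystem K) : Prop :=
  ∀ (𝔭 : Ideal (𝓞 K)) (R R' : Type) [CommRing R] [CommRing R'] [Algebra (𝓞 K) R]
    [Algebra (𝓞 K) R'], (R ≃ₐ[𝓞 K] R') → P 𝔭 R → P 𝔭 R'

/-- For all but finitely many primes `𝔭` of `K` the condition at `𝔭` holds for all finite algebras
whose nilradical has at most `N 𝔭` elements. -/
def IsAcceptable (K : Type) [Field K] [NumberField K] (P : LocalSystem K) : Prop :=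
  ∃ S₀ : Set (Ideal (𝓞 K)), S₀.Finite ∧ ∀ 𝔭 : Ideal (𝓞 K), 𝔭.IsPrime → 𝔭 ≠ ⊥ → 𝔭 ∉ S₀ →
    ∀ (R : Type) [CommRing R] [Algebra (𝓞 K) R], Finite R →
      Nat.card (nilradical R) ≤ Ideal.absNorm 𝔭 → P 𝔭 R

/-- `𝓞_L / 𝔭 𝓞_L` satisfies the condition at `𝔭`, for all primes `𝔭` of `K`. -/
def Satisfies (K : Type) [Field K] (P : LocalSystem K) (L : Type) [Field L] [Algebra K L] : Prop :=
  ∀ 𝔭 : Ideal (𝓞 K), 𝔭.IsPrime → 𝔭 ≠ ⊥ → P 𝔭 (Loc K L 𝔭)

/-- `(𝓞_M / 𝔭 𝓞_M)²` satisfies the condition at `𝔭`, for all primes `𝔭` of `K`. -/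
def SplitSatisfies (K : Type) [Field K] (P : LocalSystem K) (M : Type) [Field M] [Algebra K M] :
    Prop :=
  ∀ 𝔭 : Ideal (𝓞 K), 𝔭.IsPrime → 𝔭 ≠ ⊥ → P 𝔭 (Loc K M 𝔭 × Loc K M 𝔭)

/-- The condition that the nilradical has at most `N 𝔭` elements, and that it is zero if `𝔭` divides
`2`. (For `𝓞_L / 𝔭 𝓞_L` this says that the relative discriminant is not divisible by `𝔭 ^ 2`.) -/
def Simple (K : Type) [Field K] [NumberField K] : LocalSystem K :=
  fun 𝔭 R _ _ => Nat.card (nilradical R) ≤ Ideal.absNorm 𝔭 ∧ ((2 : 𝓞 K) ∈ 𝔭 → IsReduced R)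

/-- `M / K` is unramified at all primes `𝔭` of `K`: the rings `𝓞_M / 𝔭 𝓞_M` are reduced. -/
def IsUnramified (K : Type) [Field K] (M : Type) [Field M] [Algebra K M] : Prop :=
  ∀ 𝔭 : Ideal (𝓞 K), 𝔭.IsPrime → 𝔭 ≠ ⊥ → IsReduced (Loc K M 𝔭)

/-- `N(S, n; X)`: the number of the fields `L` in `S` of degree `n` over `K` with `|d_L| ≤ X`. -/
noncomputable def N {K : Type} [Field K] (S : Set (IntermediateField K (AlgebraicClosure K)))
    (n : ℕ) (X : ℝ) : ℕ :=
  Set.ncard {L : IntermediateField K (AlgebraicClosure K) | L ∈ S ∧ Module.finrank K L = n ∧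
    ∃ h : NumberField L, ((|@NumberField.discr L _ h| : ℤ) : ℝ) ≤ X}

/-- The number of the fields in `S`, of degree `n`, which satisfy all conditions is `c X + o(X)`, and
`c > 0` if and only if one quadratic extension `L`, of degree `n` over `K`, of one tower `M` above `𝓑`
satisfies all conditions, and if and only if there is a tower `M` of degree `n / 2` above `𝓑` for which
one quadratic extension satisfies all conditions or `(𝓞_M / 𝔭 𝓞_M)²` satisfies the condition at `𝔭` for
all `𝔭`. -/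
def LocalLaw (K : Type) [Field K] [NumberField K]
    (𝓑 S : Set (IntermediateField K (AlgebraicClosure K))) (n : ℕ) (P : LocalSystem K) (c : ℝ) :
    Prop :=
  0 ≤ c ∧ Tendsto (fun X : ℝ => (N {L | L ∈ S ∧ Satisfies K P L} n X : ℝ) / X) atTop (nhds c) ∧
    (0 < c ↔ ∃ M L : IntermediateField K (AlgebraicClosure K), Tower 𝓑 M ∧ M ≤ L ∧
      2 * Module.finrank K M = n ∧ Module.finrank K L = n ∧ Satisfies K P L) ∧
    (0 < c ↔ ∃ M : IntermediateField K (AlgebraicClosure K), Tower 𝓑 M ∧
      2 * Module.finrank K M = n ∧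
      ((∃ L : IntermediateField K (AlgebraicClosure K), M ≤ L ∧ Module.finrank K L = n ∧
        Satisfies K P L) ∨ SplitSatisfies K P M))

theorem simple_inv (K : Type) [Field K] [NumberField K] : IsInvariant K (Simple K) := by
  intro 𝔭 R R' _ _ _ _ e h
  obtain ⟨h1, h2⟩ := h
  refine ⟨?_, fun h3 => ?_⟩
  · have h4 : Nat.card (nilradical R') = Nat.card (nilradical R) := by
      refine Nat.card_congr ⟨fun x => ⟨e.symm x.1, ?_⟩, fun x => ⟨e x.1, ?_⟩, fun x => ?_,
        fun x => ?_⟩
      · exact mem_nilradical.2 ((mem_nilradical.1 x.2).map e.symm)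
      · exact mem_nilradical.2 ((mem_nilradical.1 x.2).map e)
      · exact Subtype.ext (e.apply_symm_apply x.1)
      · exact Subtype.ext (e.symm_apply_apply x.1)
    rw [h4]
    exact h1
  · have h5 := h2 h3
    exact isReduced_of_injective e.symm e.symm.injective

theorem simple_acc (K : Type) [Field K] [NumberField K] : IsAcceptable K (Simple K) := by
  refine ⟨_, Pool.Agent.H419.AC.finite_two' K, ?_⟩
  intro 𝔭 hp hp0 h2 R _ _ _ h
  exact ⟨h, fun h3 => absurd ⟨hp, hp0, h3⟩ h2⟩

theorem simple_split (K : Type) [Field K] [NumberField K] (M : Type) [Field M] [Algebra K M]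
    (h : IsUnramified K M) : SplitSatisfies K (Simple K) M := by
  intro 𝔭 hp hp0
  have h1 : IsReduced (Loc K M 𝔭) := h 𝔭 hp hp0
  have h2 : IsReduced (Loc K M 𝔭 × Loc K M 𝔭) := by
    constructor
    rintro ⟨x, y⟩ ⟨k, hk⟩
    have h3 : x ^ k = 0 := congrArg Prod.fst hk
    have h4 : y ^ k = 0 := congrArg Prod.snd hk
    have h5 : x = 0 := h1.eq_zero x ⟨k, h3⟩
    have h6 : y = 0 := h1.eq_zero y ⟨k, h4⟩
    rw [h5, h6]
    rfl
  refine ⟨?_, fun _ => h2⟩
  have h3 : nilradical (Loc K M 𝔭 × Loc K M 𝔭) = ⊥ := nilradical_eq_zero _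
  rw [h3]
  have h4 : Nat.card ((⊥ : Ideal (Loc K M 𝔭 × Loc K M 𝔭))) = 1 := Nat.card_unique
  rw [h4, Nat.one_le_iff_ne_zero, Ne, Ideal.absNorm_eq_zero_iff]
  exact hp0

section

variable {K : Type} [Field K] [NumberField K]

theorem tower_iff (𝓑 : Set (IntermediateField K (AlgebraicClosure K)))
    (L : IntermediateField K (AlgebraicClosure K)) :
    Tower 𝓑 L ↔ Pool.Agent.Q258.LQ.STow 𝓑 L := by
  constructor
  · intro h
    induction h with
    | base F hF => exact Pool.Agent.Q258.LQ.STow.base F hF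
    | step F L _ hs ih => exact Pool.Agent.Q258.LQ.STow.step F L ih hs
  · intro h
    induction h with
    | base F hF => exact Tower.base F hF
    | step F L _ hs ih => exact Tower.step F L ih hs

theorem mem_proper_iff (𝓑 : Set (IntermediateField K (AlgebraicClosure K)))
    (L : IntermediateField K (AlgebraicClosure K)) :
    L ∈ Proper 𝓑 ↔ L ∈ Pool.Agent.Q258.LQ.SAb 𝓑 := by
  constructor
  · rintro ⟨F, h1, h2, h3⟩
    exact ⟨F, (tower_iff 𝓑 F).1 h1, h2, h3⟩
  · rintro ⟨F, h1, h2, h3⟩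
    exact ⟨F, (tower_iff 𝓑 F).2 h1, h2, h3⟩

theorem N_eq (S : Set (IntermediateField K (AlgebraicClosure K))) (n : ℕ) (hn : 0 < n) (X : ℝ) :
    N S n X = Set.ncard {L : IntermediateField K (AlgebraicClosure K) | L ∈ S ∧
      Module.finrank K L = n ∧ Pool.Agent.TH444.ML.dsc L ≤ X} := by
  unfold N
  congr 1
  ext L
  simp only [Set.mem_ofPred_eq]
  constructor
  · rintro ⟨h1, h2, h3⟩
    exact ⟨h1, h2, (Pool.Agent.Q258.LQ.dsc_le_iff n hn L h2 X).1 h3⟩
  · rintro ⟨h1, h2, h3⟩
    exact ⟨h1, h2, (Pool.Agent.Q258.LQ.dsc_le_iff n hn L h2 X).2 h3⟩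

/-- the condition on the family of bottom fields -/
theorem base_conv (𝓑 : Set (IntermediateField K (AlgebraicClosure K)))
    (h : ∀ m : ℕ, 0 < m → ∃ θ : ℝ, θ < 3 / 2 ∧ ∃ C : ℝ, ∀ X : ℝ, 1 ≤ X →
      (N 𝓑 m X : ℝ) ≤ C * X ^ θ) :
    ∀ m : ℕ, 0 < m → ∃ θ : ℝ, θ < 3 / 2 ∧ ∃ C : ℝ, ∀ X : ℝ, 1 ≤ X →
      (Set.ncard {L : IntermediateField K (AlgebraicClosure K) | L ∈ 𝓑 ∧
        Module.finrank K L = m ∧ Pool.Agent.TH444.ML.dsc L ≤ X} : ℝ) ≤ C * X ^ θ := by
  intro m hm
  obtain ⟨θ, hθ, C, hC⟩ := h m hm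
  refine ⟨θ, hθ, C, fun X hX => ?_⟩
  rw [← N_eq 𝓑 m hm X]
  exact hC X hX

/-- from the split algebra to a field -/
theorem exists_of_split (P : LocalSystem K) (hP : IsInvariant K P) (hacc : IsAcceptable K P)
    (k : ℕ) (hk : 0 < k) (M : IntermediateField K (AlgebraicClosure K))
    (hM : Module.finrank K M = k) (h : SplitSatisfies K P M) :
    ∃ L : IntermediateField K (AlgebraicClosure K), M ≤ L ∧ Module.finrank K L = 2 * k ∧
      Satisfies K P L := by
  have hfd : FiniteDimensional K M := FiniteDimensional.of_finrank_pos (by omega)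
  have hnf : NumberField M := Pool.Agent.TH444.ML.nf_of_fd M
  by_contra hcon
  refine Pool.Agent.H419.AC.posAS M hP hacc (Or.inr h) ?_
  have : ∀ Y : ℝ, {L : IntermediateField K (AlgebraicClosure K) |
      L ∈ Pool.Agent.TH444.ML.AS M Y ∧ Pool.Agent.H419.AC.All P L} = ∅ := by
    intro Y
    rw [Set.eq_empty_iff_forall_notMem]
    rintro L ⟨hL, hT⟩
    refine hcon ⟨L, hL.1, ?_, hT⟩
    rw [hL.2.1, hM]
  simp only [this, Set.ncard_empty, Nat.cast_zero, zero_div]
  exact tendsto_const_nhds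

/-- the general theorem about families of bottom fields -/
theorem general (𝓑 : Set (IntermediateField K (AlgebraicClosure K)))
    (hB : ∀ m : ℕ, 0 < m → ∃ θ : ℝ, θ < 3 / 2 ∧ ∃ C : ℝ, ∀ X : ℝ, 1 ≤ X →
      (N 𝓑 m X : ℝ) ≤ C * X ^ θ) (k : ℕ) (hk : 0 < k)
    (P : LocalSystem K) (hP : IsInvariant K P) (hacc : IsAcceptable K P) :
    ∃ c : ℝ, LocalLaw K 𝓑 (Proper 𝓑) (2 * k) P c := by
  obtain ⟨c, hc0, hc1, hc2⟩ := Pool.Agent.H419.TW.tow2 𝓑
    (base_conv 𝓑 hB) k hk P hP hacc
  have e : ∀ m : ℕ, 2 * m = 2 * k ↔ m = k := fun m => by omega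
  have key : 0 < c ↔ ∃ M : IntermediateField K (AlgebraicClosure K), Tower 𝓑 M ∧
      2 * Module.finrank K M = 2 * k ∧
      ((∃ L : IntermediateField K (AlgebraicClosure K), M ≤ L ∧ Module.finrank K L = 2 * k ∧
        Satisfies K P L) ∨ SplitSatisfies K P M) := by
    rw [hc2]
    constructor
    · rintro ⟨M, h1, h2, h3⟩
      exact ⟨M, (tower_iff 𝓑 M).2 h1, (e _).2 h2, h3⟩
    · rintro ⟨M, h1, h2, h3⟩
      exact ⟨M, (tower_iff 𝓑 M).1 h1, (e _).1 h2, h3⟩
  refine ⟨c, hc0, ?_, ?_, key⟩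
  · refine hc1.congr fun X => ?_
    rw [N_eq _ (2 * k) (by omega)]
    congr 3
    ext L
    simp only [Set.mem_ofPred_eq, mem_proper_iff]
    rfl
  · rw [key]
    constructor
    · rintro ⟨M, h1, h2, ⟨L, h3, h4, h5⟩ | h3⟩
      · exact ⟨M, L, h1, h3, h2, h4, h5⟩
      · obtain ⟨L, h4, h5, h6⟩ := exists_of_split P hP hacc k hk M ((e _).1 h2) h3
        exact ⟨M, L, h1, h4, h2, h5, h6⟩
    · rintro ⟨M, L, h1, h3, h2, h4, h5⟩
      exact ⟨M, h1, h2, Or.inl ⟨L, h3, h4, h5⟩⟩

theorem bottoms_conv {𝓑 : Set (IntermediateField K (AlgebraicClosure K))} (h : 𝓑 ∈ Bottoms K) :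
    ∀ m : ℕ, 0 < m → ∃ θ : ℝ, θ < 3 / 2 ∧ ∃ C : ℝ, ∀ X : ℝ, 1 ≤ X → (N 𝓑 m X : ℝ) ≤ C * X ^ θ := by
  intro m hm
  rcases h with h | h
  · obtain ⟨θ, h1, C, hC⟩ := Pool.Agent.Q258.LQ.base_bot (K := K) (Ω := AlgebraicClosure K) m hm
    refine ⟨θ, h1, C, fun X hX => ?_⟩
    rw [h, N_eq _ m hm X]
    exact hC X hX
  · obtain ⟨θ, h1, C, hC⟩ := Pool.Agent.Q258.LQ.base_cubic (K := K) (Ω := AlgebraicClosure K) m hm
    refine ⟨θ, h1, C, fun X hX => ?_⟩
    rw [h, N_eq _ m hm X]
    exact hC X hX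

theorem bottoms_bot {𝓑 : Set (IntermediateField K (AlgebraicClosure K))} (h : 𝓑 ∈ Bottoms K) :
    ({⊥} : Set (IntermediateField K (AlgebraicClosure K))) ⊆ 𝓑 := by
  intro F hF
  rw [Set.mem_singleton_iff] at hF
  rcases h with h | h
  · rw [h, hF]
    exact Set.mem_singleton _
  · rw [h, hF]
    exact Or.inl rfl

/-- the towers of even degree are proper -/
theorem tower_proper {𝓑 : Set (IntermediateField K (AlgebraicClosure K))} (h : 𝓑 ∈ Bottoms K)
    (L : IntermediateField K (AlgebraicClosure K)) (k : ℕ) (hk : 0 < k)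
    (hL : Module.finrank K L = 2 * k) : Tower 𝓑 L ↔ L ∈ Proper 𝓑 := by
  rw [tower_iff, mem_proper_iff]
  constructor
  · intro h1
    refine Pool.Agent.Q258.LQ.sAb_of_degree h1 ?_
    intro h2
    rcases h with h | h
    · rw [h, Set.mem_singleton_iff] at h2
      rw [h2, IntermediateField.finrank_bot] at hL
      omega
    · rw [h] at h2
      rcases h2 with h2 | h2
      · rw [h2, IntermediateField.finrank_bot] at hL
        omega
      · rw [h2] at hL
        omega
  · intro h1
    exact Pool.Agent.Q258.LQ.sTow_of_sAb h1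

theorem N_tower {𝓑 : Set (IntermediateField K (AlgebraicClosure K))} (h : 𝓑 ∈ Bottoms K)
    (P : IntermediateField K (AlgebraicClosure K) → Prop) (k : ℕ) (hk : 0 < k) (X : ℝ) :
    N {L | Tower 𝓑 L ∧ P L} (2 * k) X = N {L | L ∈ Proper 𝓑 ∧ P L} (2 * k) X := by
  unfold N
  congr 1
  ext L
  simp only [Set.mem_ofPred_eq]
  constructor
  · rintro ⟨⟨h1, h2⟩, h3, h4⟩
    exact ⟨⟨(tower_proper h L k hk h3).1 h1, h2⟩, h3, h4⟩
  · rintro ⟨⟨h1, h2⟩, h3, h4⟩
    exact ⟨⟨(tower_proper h L k hk h3).2 h1, h2⟩, h3, h4⟩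

theorem N_mono (S S' : Set (IntermediateField K (AlgebraicClosure K))) (h : S ⊆ S') (n : ℕ)
    (hn : 0 < n) (X : ℝ) : N S n X ≤ N S' n X := by
  rw [N_eq S n hn, N_eq S' n hn]
  refine Set.ncard_le_ncard (fun L hL => ⟨h hL.1, hL.2⟩) ?_
  exact (Pool.Agent.Q258.LQ.finite_dsc n hn X).subset fun L hL => hL.2

/-- towers with conditions -/
theorem towers {𝓑 : Set (IntermediateField K (AlgebraicClosure K))} (h : 𝓑 ∈ Bottoms K)
    (k : ℕ) (hk : 0 < k) (P : LocalSystem K) (hP : IsInvariant K P) (hacc : IsAcceptable K P) :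
    ∃ c : ℝ, LocalLaw K 𝓑 {L | Tower 𝓑 L} (2 * k) P c := by
  obtain ⟨c, h0, h1, h2⟩ := general 𝓑 (bottoms_conv h) k hk P hP hacc
  refine ⟨c, h0, h1.congr fun X => ?_, h2⟩
  rw [← N_tower h _ k hk X]
  rfl

/-- the unramified towers -/
theorem simple_crit {𝓑 S : Set (IntermediateField K (AlgebraicClosure K))} (k : ℕ) (hk : 0 < k)
    (c : ℝ) (hc : LocalLaw K 𝓑 S (2 * k) (Simple K) c) :
    0 < c ↔ ∃ M : IntermediateField K (AlgebraicClosure K), Tower 𝓑 M ∧
      2 * Module.finrank K M = 2 * k ∧ IsUnramified K M := by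
  constructor
  · intro h
    obtain ⟨M, L, h1, hML, h3, h4, hS⟩ := hc.2.2.1.1 h
    refine ⟨M, h1, h3, ?_⟩
    intro 𝔭 hp hp0
    have hfd : FiniteDimensional K M := FiniteDimensional.of_finrank_pos (by omega)
    have hnf : NumberField M := Pool.Agent.TH444.ML.nf_of_fd M
    have hfdL : FiniteDimensional K L := FiniteDimensional.of_finrank_pos (by omega)
    have hnfL : NumberField L := Pool.Agent.TH444.ML.nf_of_fd L
    have hnf2 : NumberField (IntermediateField.extendScalars hML) := hnfL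
    have hpos : 0 < Module.finrank K M := Module.finrank_pos
    have hfin : Module.finrank K L = Module.finrank K M *
        Module.finrank M (IntermediateField.extendScalars hML) :=
      (Module.finrank_mul_finrank K M (IntermediateField.extendScalars hML)).symm
    have h2' : Module.finrank M (IntermediateField.extendScalars hML) = 2 := by
      rw [h4, ← h3] at hfin
      exact (Nat.eq_of_mul_eq_mul_left hpos (by rw [← hfin]; ring))
    by_contra hcon
    exact Pool.Agent.H419.AC.NILM.t_NILM K M (IntermediateField.extendScalars hML) 𝔭 hp hp0 h2'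
      hcon (hS 𝔭 hp hp0).1
  · rintro ⟨M, h1, h2, hu⟩
    exact hc.2.2.2.2 ⟨M, h1, h2, Or.inr (simple_split K M hu)⟩

/-- from a positive limit to a lower bound -/
theorem lower_of_lim (S : Set (IntermediateField K (AlgebraicClosure K))) (n : ℕ) (c : ℝ)
    (hc : 0 < c) (h : Tendsto (fun X : ℝ => (N S n X : ℝ) / X) atTop (nhds c)) :
    ∀ᶠ X : ℝ in atTop, c / 2 * X ≤ N S n X := by
  filter_upwards [h.eventually (lt_mem_nhds (half_lt_self hc)), eventually_gt_atTop (0 : ℝ)]
    with X h1 h2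
  exact ((lt_div_iff₀ h2).1 h1).le

end

/-- **Linnik's asymptotic formula with acceptable local conditions at all primes.** Let `K` be a number
field, `n ≥ 2` even and `𝓑` one of the two families of bottom fields.
1. For all acceptable systems of local conditions at the primes of `K` the number of the towers `L`
   above `𝓑` of degree `n` which satisfy all conditions, with `|d_L| ≤ X`, is `c X + o(X)`, and `c > 0`
   if and only if one quadratic extension `L` of one tower `M` of degree `n / 2` satisfies all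
   conditions; if `c > 0`, the number of ALL extensions of degree `n` of `K` which satisfy all
   conditions, with `|d_L| ≤ X`, is at least `c' X` for large `X`, `c' > 0`.
2. The number of the towers `L` above `𝓑` of degree `n` for which the nilradical of `𝓞_L / 𝔭 𝓞_L` has at
   most `N 𝔭` elements, and is zero if `𝔭` divides `2`, for all primes `𝔭` (that is, with squarefree
   relative discriminant), is `c X + o(X)`, and `c > 0` if and only if there is a tower of degree
   `n / 2` above `𝓑` which is unramified at all primes of `K`.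
3. The first statement holds for the nontrivial solvable extensions of towers above any family `𝓑` of
   bottom fields such that, for every `m`, there are `O(X ^ θ)`, `θ < 3 / 2`, members of degree `m`
   with `|d| ≤ X`. -/
theorem result (K : Type) [Field K] [NumberField K] (n : ℕ) (hn : 2 ≤ n) (he : Even n) :
    (∀ 𝓑 ∈ Bottoms K, ∀ P : LocalSystem K, IsInvariant K P → IsAcceptable K P →
      ∃ c : ℝ, LocalLaw K 𝓑 {L | Tower 𝓑 L} n P c ∧
        (0 < c → ∃ c' : ℝ, 0 < c' ∧ ∀ᶠ X : ℝ in atTop, c' * X ≤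
          N {L : IntermediateField K (AlgebraicClosure K) | Satisfies K P L} n X)) ∧
    (∀ 𝓑 ∈ Bottoms K, ∃ c : ℝ, LocalLaw K 𝓑 {L | Tower 𝓑 L} n (Simple K) c ∧
      (0 < c ↔ ∃ M : IntermediateField K (AlgebraicClosure K), Tower 𝓑 M ∧
        2 * Module.finrank K M = n ∧ IsUnramified K M)) ∧
    (∀ 𝓑 : Set (IntermediateField K (AlgebraicClosure K)),
      (∀ m : ℕ, 0 < m → ∃ θ : ℝ, θ < 3 / 2 ∧ ∃ C : ℝ, ∀ X : ℝ, 1 ≤ X →
        (N 𝓑 m X : ℝ) ≤ C * X ^ θ) →
      ∀ P : LocalSystem K, IsInvariant K P → IsAcceptable K P →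
        ∃ c : ℝ, LocalLaw K 𝓑 (Proper 𝓑) n P c) := by
  obtain ⟨k, hk⟩ := he
  have hk0 : 0 < k := by omega
  obtain rfl : n = 2 * k := by omega
  refine ⟨?_, ?_, ?_⟩
  · intro 𝓑 h𝓑 P hP hacc
    obtain ⟨c, hc⟩ := towers h𝓑 k hk0 P hP hacc
    refine ⟨c, hc, fun hpos => ⟨c / 2, by positivity, ?_⟩⟩
    filter_upwards [lower_of_lim _ _ c hpos hc.2.1] with X hX
    refine hX.trans ?_
    exact_mod_cast N_mono {L | L ∈ {L | Tower 𝓑 L} ∧ Satisfies K P L}
      {L : IntermediateField K (AlgebraicClosure K) | Satisfies K P L}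
      (fun L hL => hL.2) (2 * k) (by omega) X
  · intro 𝓑 h𝓑
    obtain ⟨c, hc⟩ := towers h𝓑 k hk0 (Simple K) (simple_inv K) (simple_acc K)
    exact ⟨c, hc, simple_crit k hk0 c hc⟩
  · intro 𝓑 hB P hP hacc
    exact general 𝓑 hB k hk0 P hP hacc

end Pool.Agent.Results.MP_bf81c2_nt.AcceptableConditions
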