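import Pool.Agent.H419.TW.Sum
import Pool.Agent.H419.LT.TowSig
import Pool.Agent.H419.MX.TowFin
import Pool.Agent.H419.MX.SQD
import Pool.Agent.H419.MX.QSX

/-!
# Linnik's asymptotic formula and the joint distribution of ramification

Let `K` be a number field and `n ≥ 2` even. The fields `L` of degree `n` over `K` (in the algebraic
closure) which are obtained from `K`, or from `K` or a cubic extension of `K`, by successive Galois
extensions with solvable groups are counted by `|d_L|`. There are weights `w_M > 0` for such fields `M` of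
degree `n / 2`, with a convergent sum, such that for EVERY set `T` and every finite set `R` of primes of
`K` which do not divide `2`, with `R ∩ T = ∅`, the number of the fields `L` which are unramified at all
`𝔭 ∈ T` and ramified at all `𝔭 ∈ R`, with `|d_L| ≤ X`, is `c X + o(X)` with

  `c = ∑_M w_M ρ_M(T) ∏_{𝔭 ∈ R} (1 - ρ_M({𝔭}))`,  `ρ_M(T) = ∏_{𝔓 | 𝔭 ∈ T} (1 + 1 / N 𝔓)⁻¹`

if `M` is unramified at all `𝔭 ∈ T`, and `ρ_M(T) = 0` otherwise. The `ρ_M` are multiplicative: the joint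
distribution of the ramification at the odd primes is a mixture of product measures.
-/

set_option autoImplicit false
set_option linter.unusedSectionVars false

open Filter NumberField

namespace Pool.Agent.Results.MP_bf81c2_nt.JointRamification

/-- `F ⊆ L`, and `L / F` is a finite Galois extension with solvable Galois group. -/
def SolvableGalois {K : Type} [Field K] (F L : IntermediateField K (AlgebraicClosure K)) : Prop :=
  ∃ h : F ≤ L, FiniteDimensional F (IntermediateField.extendScalars h) ∧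
    IsGalois F (IntermediateField.extendScalars h) ∧
    Group.IsSolvable
      ((IntermediateField.extendScalars h) ≃ₐ[F] (IntermediateField.extendScalars h))

/-- `L` is obtained from a member of `𝓑` by (zero or more) successive solvable Galois extensions. -/
inductive Tower {K : Type} [Field K] (𝓑 : Set (IntermediateField K (AlgebraicClosure K))) :
    IntermediateField K (AlgebraicClosure K) → Prop
  | base (F : IntermediateField K (AlgebraicClosure K)) : F ∈ 𝓑 → Tower 𝓑 F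
  | step (F L : IntermediateField K (AlgebraicClosure K)) :
      Tower 𝓑 F → SolvableGalois F L → Tower 𝓑 L

/-- `L` is a nontrivial solvable Galois extension of a tower `F` above a member of `𝓑`. -/
def Proper {K : Type} [Field K] (𝓑 : Set (IntermediateField K (AlgebraicClosure K))) :
    Set (IntermediateField K (AlgebraicClosure K)) :=
  {L | ∃ F : IntermediateField K (AlgebraicClosure K), Tower 𝓑 F ∧ F ≠ L ∧ SolvableGalois F L}

/-- The two families of bottom fields: `K`, and `K` together with all its cubic extensions. -/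
def Bottoms (K : Type) [Field K] : Set (Set (IntermediateField K (AlgebraicClosure K))) :=
  {𝓑 | 𝓑 = {⊥} ∨ 𝓑 = {F : IntermediateField K (AlgebraicClosure K) |
    F = ⊥ ∨ Module.finrank K F = 3}}

/-- `L / K` is unramified at the prime `𝔭` of `K`: the ring `𝓞_L / 𝔭 𝓞_L` is reduced. -/
def Unramified (K : Type) [Field K] (L : Type) [Field L] [Algebra K L] (𝔭 : Ideal (𝓞 K)) : Prop :=
  IsReduced (𝓞 L ⧸ 𝔭.map (algebraMap (𝓞 K) (𝓞 L)))

/-- A set of (nonzero) primes of `K` which do not divide `2`. -/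
def IsOddPrimeSet (K : Type) [Field K] (T : Set (Ideal (𝓞 K))) : Prop :=
  ∀ 𝔭 ∈ T, 𝔭.IsPrime ∧ 𝔭 ≠ ⊥ ∧ (2 : 𝓞 K) ∉ 𝔭

/-- The primes of `M` above the primes in `T`. -/
def PrimesAbove (K M : Type) [Field K] [Field M] [Algebra K M] (T : Set (Ideal (𝓞 K))) :
    Set (Ideal (𝓞 M)) :=
  {𝔓 : Ideal (𝓞 M) | 𝔓.IsPrime ∧ 𝔓.comap (algebraMap (𝓞 K) (𝓞 M)) ∈ T}

/-- The product of `(1 + 1 / N 𝔓)⁻¹` over the (finitely or infinitely many) `𝔓 ∈ W`: the infimum of the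
products over the finite subsets of `W`. Here `N 𝔓` is the number of elements of `𝓞_M / 𝔓`. -/
noncomputable def EulerProduct (M : Type) [Field M] (W : Set (Ideal (𝓞 M))) : ℝ :=
  ⨅ W₀ : {W₀ : Finset (Ideal (𝓞 M)) // ∀ 𝔓 ∈ W₀, 𝔓 ∈ W},
    ∏ 𝔓 ∈ W₀.1, (1 + (1 : ℝ) / Nat.card (𝓞 M ⧸ 𝔓))⁻¹

open Classical in
/-- `ρ_M(T)`: the product of `(1 + 1 / N 𝔓)⁻¹` over the primes `𝔓` of `M` above the primes in `T`, if
`M / K` is unramified at all `𝔭 ∈ T`, and `0` otherwise. -/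
noncomputable def rho (K M : Type) [Field K] [Field M] [Algebra K M] (T : Set (Ideal (𝓞 K))) : ℝ :=
  if ∀ 𝔭 ∈ T, Unramified K M 𝔭 then EulerProduct M (PrimesAbove K M T) else 0

/-- `N(S, n; X)`: the number of the fields `L` in `S` of degree `n` over `K` with `|d_L| ≤ X`. -/
noncomputable def N {K : Type} [Field K] (S : Set (IntermediateField K (AlgebraicClosure K)))
    (n : ℕ) (X : ℝ) : ℕ :=
  Set.ncard {L : IntermediateField K (AlgebraicClosure K) | L ∈ S ∧ Module.finrank K L = n ∧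
    ∃ h : NumberField L, ((|@NumberField.discr L _ h| : ℤ) : ℝ) ≤ X}

/-- The towers of degree `n / 2` above `𝓑`. -/
def HalfTowers {K : Type} [Field K] (𝓑 : Set (IntermediateField K (AlgebraicClosure K))) (n : ℕ) :
    Set (IntermediateField K (AlgebraicClosure K)) :=
  {M | Tower 𝓑 M ∧ 2 * Module.finrank K M = n}

/-- The fields in `S` which are unramified at all `𝔭 ∈ T` and ramified at all `𝔭 ∈ R`. -/
def RamSet {K : Type} [Field K] (S : Set (IntermediateField K (AlgebraicClosure K)))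
    (T R : Set (Ideal (𝓞 K))) : Set (IntermediateField K (AlgebraicClosure K)) :=
  {L | L ∈ S ∧ ((∀ 𝔭 ∈ T, Unramified K L 𝔭) ∧ ∀ 𝔭 ∈ R, ¬ Unramified K L 𝔭)}

/-- `∑_M w_M ρ_M(T) ∏_{𝔭 ∈ R} (1 - ρ_M({𝔭}))`. -/
noncomputable def const {K : Type} [Field K] (𝓑 : Set (IntermediateField K (AlgebraicClosure K)))
    (n : ℕ) (w : IntermediateField K (AlgebraicClosure K) → ℝ) (T : Set (Ideal (𝓞 K)))
    (R : Finset (Ideal (𝓞 K))) : ℝ :=
  ∑' M : HalfTowers 𝓑 n, w M.1 * (rho K M.1 T * ∏ 𝔭 ∈ R, (1 - rho K M.1 {𝔭}))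

/-- The weights `w_M` are positive, their sum converges, and for all sets `T` and all finite sets `R` of
odd primes with `R ∩ T = ∅` the number of the fields in `S`, of degree `n`, which are unramified at all
`𝔭 ∈ T` and ramified at all `𝔭 ∈ R` is `c X + o(X)` with `c = ∑_M w_M ρ_M(T) ∏_{𝔭 ∈ R} (1 - ρ_M({𝔭}))`. -/
def JointLaw (K : Type) [Field K] [NumberField K]
    (𝓑 S : Set (IntermediateField K (AlgebraicClosure K))) (n : ℕ)
    (w : IntermediateField K (AlgebraicClosure K) → ℝ) : Prop :=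
  (∀ M ∈ HalfTowers 𝓑 n, 0 < w M) ∧ (Summable fun M : HalfTowers 𝓑 n => w M.1) ∧
    ∀ (R : Finset (Ideal (𝓞 K))) (T : Set (Ideal (𝓞 K))), IsOddPrimeSet K T →
      IsOddPrimeSet K (R : Set (Ideal (𝓞 K))) → Disjoint T (R : Set (Ideal (𝓞 K))) →
      Tendsto (fun X : ℝ => (N (RamSet S T R) n X : ℝ) / X) atTop (nhds (const 𝓑 n w T R))

theorem euler_eq (M : Type) [Field M] [NumberField M] (W : Set (Ideal (𝓞 M))) :
    EulerProduct M W = Pool.Agent.H419.MX.locW M W := by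
  have h : ∀ 𝔓 : Ideal (𝓞 M), Nat.card (𝓞 M ⧸ 𝔓) = Ideal.absNorm 𝔓 := fun 𝔓 => by
    rw [Ideal.absNorm_apply, Submodule.cardQuot_apply]
  unfold EulerProduct Pool.Agent.H419.MX.locW Pool.Agent.H419.MX.loc
  simp only [h]

theorem rho_eq (K M : Type) [Field K] [NumberField K] [Field M] [NumberField M] [Algebra K M]
    (T : Set (Ideal (𝓞 K))) : rho K M T = Pool.Agent.H419.MX.locM K M T := by
  unfold rho Pool.Agent.H419.MX.locM
  rw [euler_eq]
  rfl

section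

variable {M : Type} [Field M]

/-- the finite products -/
noncomputable def fp (W₀ : Finset (Ideal (𝓞 M))) : ℝ :=
  ∏ 𝔓 ∈ W₀, (1 + (1 : ℝ) / Nat.card (𝓞 M ⧸ 𝔓))⁻¹

theorem fp_nonneg (W₀ : Finset (Ideal (𝓞 M))) : 0 ≤ fp W₀ :=
  Finset.prod_nonneg fun _ _ => by positivity

theorem fac_le (𝔓 : Ideal (𝓞 M)) : (1 + (1 : ℝ) / Nat.card (𝓞 M ⧸ 𝔓))⁻¹ ≤ 1 := by
  have h : (0 : ℝ) ≤ (1 : ℝ) / Nat.card (𝓞 M ⧸ 𝔓) := by positivity
  exact inv_le_one_of_one_le₀ (by linarith)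

theorem fp_le_one (W₀ : Finset (Ideal (𝓞 M))) : fp W₀ ≤ 1 :=
  Finset.prod_le_one (fun _ _ => by positivity) fun 𝔓 _ => fac_le 𝔓

theorem bdd (W : Set (Ideal (𝓞 M))) : BddBelow (Set.range fun
    W₀ : {W₀ : Finset (Ideal (𝓞 M)) // ∀ 𝔓 ∈ W₀, 𝔓 ∈ W} => fp W₀.1) :=
  ⟨0, by rintro _ ⟨W₀, rfl⟩; exact fp_nonneg W₀.1⟩

instance (W : Set (Ideal (𝓞 M))) :
    Nonempty {W₀ : Finset (Ideal (𝓞 M)) // ∀ 𝔓 ∈ W₀, 𝔓 ∈ W} :=
  ⟨⟨∅, fun 𝔓 h => absurd h (Finset.notMem_empty 𝔓)⟩⟩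

theorem ep_nonneg (W : Set (Ideal (𝓞 M))) : 0 ≤ EulerProduct M W :=
  le_ciInf fun W₀ => fp_nonneg W₀.1

theorem ep_le (W : Set (Ideal (𝓞 M))) (W₀ : Finset (Ideal (𝓞 M))) (h : ∀ 𝔓 ∈ W₀, 𝔓 ∈ W) :
    EulerProduct M W ≤ fp W₀ :=
  ciInf_le (bdd W) ⟨W₀, h⟩

theorem ep_le_one (W : Set (Ideal (𝓞 M))) : EulerProduct M W ≤ 1 :=
  (ep_le W ∅ fun 𝔓 h => absurd h (Finset.notMem_empty 𝔓)).trans (fp_le_one ∅)

theorem ep_mono (W W' : Set (Ideal (𝓞 M))) (h : W ⊆ W') : EulerProduct M W' ≤ EulerProduct M W :=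
  le_ciInf fun W₀ => ep_le W' W₀.1 fun 𝔓 h𝔓 => h (W₀.2 𝔓 h𝔓)

theorem exists_lt (W : Set (Ideal (𝓞 M))) (x : ℝ) (hx : EulerProduct M W < x) :
    ∃ W₀ : Finset (Ideal (𝓞 M)), (∀ 𝔓 ∈ W₀, 𝔓 ∈ W) ∧ fp W₀ < x := by
  obtain ⟨⟨W₀, h⟩, h1⟩ := exists_lt_of_ciInf_lt hx
  exact ⟨W₀, h, h1⟩

theorem ep_union (W W' : Set (Ideal (𝓞 M))) (h : Disjoint W W') :
    EulerProduct M (W ∪ W') = EulerProduct M W * EulerProduct M W' := by
  classical
  refine le_antisymm ?_ ?_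
  · have h1 : ∀ W₀ : Finset (Ideal (𝓞 M)), (∀ 𝔓 ∈ W₀, 𝔓 ∈ W) → ∀ W₁ : Finset (Ideal (𝓞 M)),
        (∀ 𝔓 ∈ W₁, 𝔓 ∈ W') → EulerProduct M (W ∪ W') ≤ fp W₀ * fp W₁ := by
      intro W₀ hW₀ W₁ hW₁
      have h2 : Disjoint W₀ W₁ := by
        rw [Finset.disjoint_left]
        intro 𝔓 h3 h4
        exact Set.disjoint_left.1 h (hW₀ 𝔓 h3) (hW₁ 𝔓 h4)
      have h3 : fp W₀ * fp W₁ = fp (W₀ ∪ W₁) := by
        unfold fp
        rw [Finset.prod_union h2]
      rw [h3]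
      refine ep_le _ _ fun 𝔓 h𝔓 => ?_
      rcases Finset.mem_union.1 h𝔓 with h5 | h5
      · exact Or.inl (hW₀ 𝔓 h5)
      · exact Or.inr (hW₁ 𝔓 h5)
    have h2 : ∀ W₀ : Finset (Ideal (𝓞 M)), (∀ 𝔓 ∈ W₀, 𝔓 ∈ W) →
        EulerProduct M (W ∪ W') ≤ fp W₀ * EulerProduct M W' := by
      intro W₀ hW₀
      unfold EulerProduct
      rw [Real.mul_iInf_of_nonneg (fp_nonneg W₀)]
      exact le_ciInf fun W₁ => h1 W₀ hW₀ W₁.1 W₁.2
    have h3 : EulerProduct M W * EulerProduct M W' =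
        ⨅ W₀ : {W₀ : Finset (Ideal (𝓞 M)) // ∀ 𝔓 ∈ W₀, 𝔓 ∈ W}, fp W₀.1 * EulerProduct M W' :=
      Real.iInf_mul_of_nonneg (ep_nonneg W') _
    rw [h3]
    exact le_ciInf fun W₀ => h2 W₀.1 W₀.2
  · refine le_ciInf ?_
    rintro ⟨W₀, hW₀⟩
    have h1 : fp W₀ = fp (W₀.filter fun 𝔓 => 𝔓 ∈ W) * fp (W₀.filter fun 𝔓 => ¬ 𝔓 ∈ W) :=
      (Finset.prod_filter_mul_prod_filter_not W₀ (fun 𝔓 => 𝔓 ∈ W) _).symm
    change _ ≤ fp W₀
    rw [h1]
    refine mul_le_mul (ep_le _ _ fun 𝔓 h𝔓 => (Finset.mem_filter.1 h𝔓).2)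
      (ep_le _ _ fun 𝔓 h𝔓 => ?_) (ep_nonneg _) (fp_nonneg _)
    obtain ⟨h2, h3⟩ := Finset.mem_filter.1 h𝔓
    rcases hW₀ 𝔓 h2 with h4 | h4
    · exact absurd h4 h3
    · exact h4

end

section

variable {K M : Type} [Field K] [Field M] [Algebra K M]

theorem rho_nonneg (T : Set (Ideal (𝓞 K))) : 0 ≤ rho K M T := by
  unfold rho
  split_ifs
  · exact ep_nonneg _
  · exact le_rfl

theorem rho_le_one (T : Set (Ideal (𝓞 K))) : rho K M T ≤ 1 := by
  unfold rho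
  split_ifs
  · exact ep_le_one _
  · exact zero_le_one

theorem rho_mono (T T' : Set (Ideal (𝓞 K))) (h : T ⊆ T') : rho K M T' ≤ rho K M T := by
  by_cases h1 : ∀ 𝔭 ∈ T', Unramified K M 𝔭
  · have e1 : rho K M T' = EulerProduct M (PrimesAbove K M T') := if_pos h1
    have e2 : rho K M T = EulerProduct M (PrimesAbove K M T) := if_pos fun 𝔭 h𝔭 => h1 𝔭 (h h𝔭)
    rw [e1, e2]
    exact ep_mono _ _ fun 𝔓 h𝔓 => ⟨h𝔓.1, h h𝔓.2⟩
  · have e1 : rho K M T' = 0 := if_neg h1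
    rw [e1]
    exact rho_nonneg T

theorem rho_union (T T' : Set (Ideal (𝓞 K))) (h : Disjoint T T') :
    rho K M (T ∪ T') = rho K M T * rho K M T' := by
  by_cases h1 : ∀ 𝔭 ∈ T, Unramified K M 𝔭
  · by_cases h2 : ∀ 𝔭 ∈ T', Unramified K M 𝔭
    · have e1 : rho K M T = EulerProduct M (PrimesAbove K M T) := if_pos h1
      have e2 : rho K M T' = EulerProduct M (PrimesAbove K M T') := if_pos h2
      have e3 : rho K M (T ∪ T') = EulerProduct M (PrimesAbove K M (T ∪ T')) := if_pos (by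
        rintro 𝔭 (h3 | h3)
        · exact h1 𝔭 h3
        · exact h2 𝔭 h3)
      have e4 : PrimesAbove K M (T ∪ T') = PrimesAbove K M T ∪ PrimesAbove K M T' := by
        ext 𝔓
        constructor
        · rintro ⟨h3, h4 | h4⟩
          · exact Or.inl ⟨h3, h4⟩
          · exact Or.inr ⟨h3, h4⟩
        · rintro (⟨h3, h4⟩ | ⟨h3, h4⟩)
          · exact ⟨h3, Or.inl h4⟩
          · exact ⟨h3, Or.inr h4⟩
      rw [e1, e2, e3, e4]
      refine ep_union _ _ ?_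
      rw [Set.disjoint_left]
      rintro 𝔓 ⟨-, h3⟩ ⟨-, h4⟩
      exact Set.disjoint_left.1 h h3 h4
    · have e1 : rho K M T' = 0 := if_neg h2
      have e2 : rho K M (T ∪ T') = 0 := if_neg fun h3 => h2 fun 𝔭 h𝔭 => h3 𝔭 (Or.inr h𝔭)
      rw [e1, e2, mul_zero]
  · have e1 : rho K M T = 0 := if_neg h1
    have e2 : rho K M (T ∪ T') = 0 := if_neg fun h3 => h1 fun 𝔭 h𝔭 => h3 𝔭 (Or.inl h𝔭)
    rw [e1, e2, zero_mul]

theorem rho_empty : rho K M ∅ = 1 := by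
  have e1 : rho K M ∅ = EulerProduct M (PrimesAbove K M ∅) :=
    if_pos fun 𝔭 h => absurd h (Set.notMem_empty 𝔭)
  rw [e1]
  refine le_antisymm (ep_le_one _) (le_ciInf ?_)
  rintro ⟨W₀, hW₀⟩
  have h0 : W₀ = ∅ := Finset.eq_empty_of_forall_notMem fun 𝔓 h => (hW₀ 𝔓 h).2
  subst h0
  simp

/-- the finite subsets determine `ρ` -/
theorem rho_tendsto (T : Set (Ideal (𝓞 K))) :
    Tendsto (fun T₀ : Finset T => rho K M (T₀.map (Function.Embedding.subtype _) :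
      Set (Ideal (𝓞 K)))) atTop (nhds (rho K M T)) := by
  classical
  have hsub : ∀ T₀ : Finset T, ((T₀.map (Function.Embedding.subtype _) :
      Finset (Ideal (𝓞 K))) : Set (Ideal (𝓞 K))) ⊆ T := by
    intro T₀ 𝔭 h
    rw [Finset.mem_coe, Finset.mem_map] at h
    obtain ⟨𝔮, -, rfl⟩ := h
    exact 𝔮.2
  rw [tendsto_order]
  constructor
  · intro x hx
    exact Eventually.of_forall fun T₀ => hx.trans_le (rho_mono _ _ (hsub T₀))
  · intro x hx
    have key : ∃ T₀ : Finset T, rho K M (T₀.map (Function.Embedding.subtype _) :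
        Set (Ideal (𝓞 K))) < x := by
      by_cases h1 : ∀ 𝔭 ∈ T, Unramified K M 𝔭
      · have e1 : rho K M T = EulerProduct M (PrimesAbove K M T) := if_pos h1
        rw [e1] at hx
        obtain ⟨W₀, h2, h3⟩ := exists_lt _ _ hx
        set T₀ : Finset T := (W₀.attach.image fun 𝔓 =>
          (⟨𝔓.1.comap (algebraMap (𝓞 K) (𝓞 M)), (h2 𝔓.1 𝔓.2).2⟩ : T)) with hT₀
        refine ⟨T₀, lt_of_le_of_lt ?_ h3⟩
        have e2 : rho K M (T₀.map (Function.Embedding.subtype _) : Set (Ideal (𝓞 K))) =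
            EulerProduct M (PrimesAbove K M (T₀.map (Function.Embedding.subtype _) :
              Set (Ideal (𝓞 K)))) := if_pos fun 𝔭 h𝔭 => h1 𝔭 (hsub T₀ h𝔭)
        rw [e2]
        refine ep_le _ _ fun 𝔓 h𝔓 => ⟨(h2 𝔓 h𝔓).1, ?_⟩
        rw [Finset.mem_coe, Finset.mem_map]
        exact ⟨⟨𝔓.comap (algebraMap (𝓞 K) (𝓞 M)), (h2 𝔓 h𝔓).2⟩,
          Finset.mem_image.2 ⟨⟨𝔓, h𝔓⟩, Finset.mem_attach _ _, rfl⟩, rfl⟩
      · push Not at h1
        obtain ⟨𝔭, h𝔭, h2⟩ := h1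
        refine ⟨{⟨𝔭, h𝔭⟩}, ?_⟩
        have e1 : rho K M T = 0 := if_neg fun h => h2 (h 𝔭 h𝔭)
        have e2 : rho K M ((({⟨𝔭, h𝔭⟩} : Finset T).map (Function.Embedding.subtype _) :
            Finset (Ideal (𝓞 K))) : Set (Ideal (𝓞 K))) = 0 := if_neg fun h => h2 (h 𝔭 (by
              rw [Finset.mem_coe, Finset.mem_map]
              exact ⟨⟨𝔭, h𝔭⟩, Finset.mem_singleton_self _, rfl⟩))
        rw [e2]
        rwa [e1] at hx
    obtain ⟨T₀, h4⟩ := key
    filter_upwards [eventually_ge_atTop T₀] with T₁ h5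
    refine (rho_mono _ _ ?_).trans_lt h4
    intro 𝔭 h𝔭
    rw [Finset.mem_coe, Finset.mem_map] at h𝔭 ⊢
    obtain ⟨𝔮, h6, h7⟩ := h𝔭
    exact ⟨𝔮, h5 h6, h7⟩

end

section

variable {K : Type} [Field K] [NumberField K]

theorem tower_iff (𝓑 : Set (IntermediateField K (AlgebraicClosure K)))
    (L : IntermediateField K (AlgebraicClosure K)) :
    Tower 𝓑 L ↔ Pool.Agent.Q258.LQ.STow 𝓑 L := by
  constructor
  · intro h
    induction h with
    | base F hF => exact Pool.Agent.Q258.LQ.STow.base F hF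
    | step F L _ hs ih => exact Pool.Agent.Q258.LQ.STow.step F L ih hs
  · intro h
    induction h with
    | base F hF => exact Tower.base F hF
    | step F L _ hs ih => exact Tower.step F L ih hs

theorem mem_proper_iff (𝓑 : Set (IntermediateField K (AlgebraicClosure K)))
    (L : IntermediateField K (AlgebraicClosure K)) :
    L ∈ Proper 𝓑 ↔ L ∈ Pool.Agent.Q258.LQ.SAb 𝓑 := by
  constructor
  · rintro ⟨F, h1, h2, h3⟩
    exact ⟨F, (tower_iff 𝓑 F).1 h1, h2, h3⟩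
  · rintro ⟨F, h1, h2, h3⟩
    exact ⟨F, (tower_iff 𝓑 F).2 h1, h2, h3⟩

theorem N_eq (S : Set (IntermediateField K (AlgebraicClosure K))) (n : ℕ) (hn : 0 < n) (X : ℝ) :
    N S n X = Set.ncard {L : IntermediateField K (AlgebraicClosure K) | L ∈ S ∧
      Module.finrank K L = n ∧ Pool.Agent.TH444.ML.dsc L ≤ X} := by
  unfold N
  congr 1
  ext L
  simp only [Set.mem_ofPred_eq]
  constructor
  · rintro ⟨h1, h2, h3⟩
    exact ⟨h1, h2, (Pool.Agent.Q258.LQ.dsc_le_iff n hn L h2 X).1 h3⟩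
  · rintro ⟨h1, h2, h3⟩
    exact ⟨h1, h2, (Pool.Agent.Q258.LQ.dsc_le_iff n hn L h2 X).2 h3⟩

/-- the condition on the family of bottom fields -/
theorem base_conv (𝓑 : Set (IntermediateField K (AlgebraicClosure K)))
    (h : ∀ m : ℕ, 0 < m → ∃ θ : ℝ, θ < 3 / 2 ∧ ∃ C : ℝ, ∀ X : ℝ, 1 ≤ X →
      (N 𝓑 m X : ℝ) ≤ C * X ^ θ) :
    ∀ m : ℕ, 0 < m → ∃ θ : ℝ, θ < 3 / 2 ∧ ∃ C : ℝ, ∀ X : ℝ, 1 ≤ X →
      (Set.ncard {L : IntermediateField K (AlgebraicClosure K) | L ∈ 𝓑 ∧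
        Module.finrank K L = m ∧ Pool.Agent.TH444.ML.dsc L ≤ X} : ℝ) ≤ C * X ^ θ := by
  intro m hm
  obtain ⟨θ, hθ, C, hC⟩ := h m hm
  refine ⟨θ, hθ, C, fun X hX => ?_⟩
  rw [← N_eq 𝓑 m hm X]
  exact hC X hX

theorem bottoms_conv {𝓑 : Set (IntermediateField K (AlgebraicClosure K))} (h : 𝓑 ∈ Bottoms K) :
    ∀ m : ℕ, 0 < m → ∃ θ : ℝ, θ < 3 / 2 ∧ ∃ C : ℝ, ∀ X : ℝ, 1 ≤ X → (N 𝓑 m X : ℝ) ≤ C * X ^ θ := by
  intro m hm
  rcases h with h | h
  · obtain ⟨θ, h1, C, hC⟩ := Pool.Agent.Q258.LQ.base_bot (K := K) (Ω := AlgebraicClosure K) m hm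
    refine ⟨θ, h1, C, fun X hX => ?_⟩
    rw [h, N_eq _ m hm X]
    exact hC X hX
  · obtain ⟨θ, h1, C, hC⟩ := Pool.Agent.Q258.LQ.base_cubic (K := K) (Ω := AlgebraicClosure K) m hm
    refine ⟨θ, h1, C, fun X hX => ?_⟩
    rw [h, N_eq _ m hm X]
    exact hC X hX

theorem bottoms_bot {𝓑 : Set (IntermediateField K (AlgebraicClosure K))} (h : 𝓑 ∈ Bottoms K) :
    ({⊥} : Set (IntermediateField K (AlgebraicClosure K))) ⊆ 𝓑 := by
  intro F hF
  rw [Set.mem_singleton_iff] at hF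
  rcases h with h | h
  · rw [h, hF]
    exact Set.mem_singleton _
  · rw [h, hF]
    exact Or.inl rfl

/-- the towers of even degree are proper -/
theorem tower_proper {𝓑 : Set (IntermediateField K (AlgebraicClosure K))} (h : 𝓑 ∈ Bottoms K)
    (L : IntermediateField K (AlgebraicClosure K)) (k : ℕ) (hk : 0 < k)
    (hL : Module.finrank K L = 2 * k) : Tower 𝓑 L ↔ L ∈ Proper 𝓑 := by
  rw [tower_iff, mem_proper_iff]
  constructor
  · intro h1
    refine Pool.Agent.Q258.LQ.sAb_of_degree h1 ?_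
    intro h2
    rcases h with h | h
    · rw [h, Set.mem_singleton_iff] at h2
      rw [h2, IntermediateField.finrank_bot] at hL
      omega
    · rw [h] at h2
      rcases h2 with h2 | h2
      · rw [h2, IntermediateField.finrank_bot] at hL
        omega
      · rw [h2] at hL
        omega
  · intro h1
    exact Pool.Agent.Q258.LQ.sTow_of_sAb h1

theorem N_tower {𝓑 : Set (IntermediateField K (AlgebraicClosure K))} (h : 𝓑 ∈ Bottoms K)
    (P : IntermediateField K (AlgebraicClosure K) → Prop) (k : ℕ) (hk : 0 < k) (X : ℝ) :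
    N {L | Tower 𝓑 L ∧ P L} (2 * k) X = N {L | L ∈ Proper 𝓑 ∧ P L} (2 * k) X := by
  unfold N
  congr 1
  ext L
  simp only [Set.mem_ofPred_eq]
  constructor
  · rintro ⟨⟨h1, h2⟩, h3, h4⟩
    exact ⟨⟨(tower_proper h L k hk h3).1 h1, h2⟩, h3, h4⟩
  · rintro ⟨⟨h1, h2⟩, h3, h4⟩
    exact ⟨⟨(tower_proper h L k hk h3).2 h1, h2⟩, h3, h4⟩

theorem N_mono (S S' : Set (IntermediateField K (AlgebraicClosure K))) (h : S ⊆ S') (n : ℕ)
    (hn : 0 < n) (X : ℝ) : N S n X ≤ N S' n X := by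
  rw [N_eq S n hn, N_eq S' n hn]
  refine Set.ncard_le_ncard (fun L hL => ⟨h hL.1, hL.2⟩) ?_
  exact (Pool.Agent.Q258.LQ.finite_dsc n hn X).subset fun L hL => hL.2

/-- the joint distribution from the unramified case -/
theorem joint (𝓑 S : Set (IntermediateField K (AlgebraicClosure K))) (n : ℕ) (hn : 0 < n)
    (w : IntermediateField K (AlgebraicClosure K) → ℝ) (hw : ∀ M ∈ HalfTowers 𝓑 n, 0 < w M)
    (hs : Summable fun M : HalfTowers 𝓑 n => w M.1)
    (hlim : ∀ T : Set (Ideal (𝓞 K)), IsOddPrimeSet K T →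
      Tendsto (fun X : ℝ => (N (RamSet S T ∅) n X : ℝ) / X) atTop
        (nhds (∑' M : HalfTowers 𝓑 n, w M.1 * rho K M.1 T))) : JointLaw K 𝓑 S n w := by
  classical
  refine ⟨hw, hs, ?_⟩
  intro R
  induction R using Finset.induction_on with
  | empty =>
    intro T hT _ _
    unfold const
    simp only [Finset.coe_empty, Finset.prod_empty, mul_one]
    exact hlim T hT
  | insert 𝔭 R hn' ih =>
    intro T hT hR hd
    have hR' : IsOddPrimeSet K (R : Set (Ideal (𝓞 K))) := fun 𝔮 h𝔮 =>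
      hR 𝔮 (Finset.mem_coe.2 (Finset.mem_insert_of_mem h𝔮))
    have hp := hR 𝔭 (Finset.mem_coe.2 (Finset.mem_insert_self 𝔭 R))
    have hTp : 𝔭 ∉ T := fun h =>
      Set.disjoint_left.1 hd h (Finset.mem_coe.2 (Finset.mem_insert_self 𝔭 R))
    have hd' : Disjoint T (R : Set (Ideal (𝓞 K))) := by
      rw [Set.disjoint_left]
      intro 𝔮 h3 h4
      exact Set.disjoint_left.1 hd h3 (Finset.mem_coe.2 (Finset.mem_insert_of_mem h4))
    have hT' : IsOddPrimeSet K (insert 𝔭 T) := by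
      rintro 𝔮 (rfl | h3)
      · exact hp
      · exact hT 𝔮 h3
    have hd2 : Disjoint (insert 𝔭 T) (R : Set (Ideal (𝓞 K))) := by
      rw [Set.disjoint_left]
      rintro 𝔮 (rfl | h3) h4
      · exact hn' h4
      · exact Set.disjoint_left.1 hd' h3 h4
    have h1 := ih T hT hR' hd'
    have h3 := ih (insert 𝔭 T) hT' hR' hd2
    have hb : ∀ (S' : Set (Ideal (𝓞 K))) (M : HalfTowers 𝓑 n),
        0 ≤ w M.1 * (rho K M.1 S' * ∏ 𝔮 ∈ R, (1 - rho K M.1 {𝔮})) ∧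
        w M.1 * (rho K M.1 S' * ∏ 𝔮 ∈ R, (1 - rho K M.1 {𝔮})) ≤ w M.1 := by
      intro S' M
      have h4 := hw M.1 M.2
      have h5 : 0 ≤ ∏ 𝔮 ∈ R, (1 - rho K M.1 {𝔮}) :=
        Finset.prod_nonneg fun 𝔮 _ => sub_nonneg.2 (rho_le_one _)
      have h6 : ∏ 𝔮 ∈ R, (1 - rho K M.1 {𝔮}) ≤ 1 :=
        Finset.prod_le_one (fun 𝔮 _ => sub_nonneg.2 (rho_le_one _)) fun 𝔮 _ => by
          linarith [rho_nonneg (K := K) (M := M.1) {𝔮}]
      refine ⟨mul_nonneg h4.le (mul_nonneg (rho_nonneg S') h5), ?_⟩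
      exact mul_le_of_le_one_right h4.le (mul_le_one₀ (rho_le_one S') h5 h6)
    have hsS : ∀ S' : Set (Ideal (𝓞 K)), Summable fun M : HalfTowers 𝓑 n =>
          w M.1 * (rho K M.1 S' * ∏ 𝔮 ∈ R, (1 - rho K M.1 {𝔮})) := fun S' =>
      Summable.of_nonneg_of_le (fun M => (hb S' M).1) (fun M => (hb S' M).2) hs
    have h4 := h1.sub h3
    unfold const at h4
    rw [← (hsS T).tsum_sub (hsS (insert 𝔭 T))] at h4
    have e : (fun M : HalfTowers 𝓑 n =>
        w M.1 * (rho K M.1 T * ∏ 𝔮 ∈ R, (1 - rho K M.1 {𝔮})) -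
          w M.1 * (rho K M.1 (insert 𝔭 T) * ∏ 𝔮 ∈ R, (1 - rho K M.1 {𝔮}))) =
        fun M => w M.1 * (rho K M.1 T * ∏ 𝔮 ∈ insert 𝔭 R, (1 - rho K M.1 {𝔮})) := by
      funext M
      have h5 : rho K M.1 (insert 𝔭 T) = rho K M.1 T * rho K M.1 {𝔭} := by
        rw [Set.insert_eq, Set.union_comm]
        refine rho_union _ _ ?_
        rw [Set.disjoint_singleton_right]
        exact hTp
      rw [h5, Finset.prod_insert hn']
      ring
    rw [e] at h4
    unfold const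
    refine h4.congr fun X => ?_
    have h5 : N (RamSet S T R) n X =
        N (RamSet S (insert 𝔭 T) R) n X + N (RamSet S T (insert 𝔭 (R : Set (Ideal (𝓞 K))))) n X := by
      rw [N_eq _ n hn, N_eq _ n hn, N_eq _ n hn]
      have hf : ∀ S' : Set (IntermediateField K (AlgebraicClosure K)),
          {L : IntermediateField K (AlgebraicClosure K) | L ∈ S' ∧ Module.finrank K L = n ∧
            Pool.Agent.TH444.ML.dsc L ≤ X}.Finite := fun S' =>
        (Pool.Agent.Q258.LQ.finite_dsc n hn X).subset fun L hL => hL.2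
      rw [← Set.ncard_union_eq ?_ (hf _) (hf _)]
      · congr 1
        ext L
        constructor
        · rintro ⟨⟨h6, h7, h8⟩, h9⟩
          by_cases h10 : Unramified K L 𝔭
          · refine Or.inl ⟨⟨h6, ?_, h8⟩, h9⟩
            rintro 𝔮 (rfl | h11)
            · exact h10
            · exact h7 𝔮 h11
          · refine Or.inr ⟨⟨h6, h7, ?_⟩, h9⟩
            rintro 𝔮 (rfl | h11)
            · exact h10
            · exact h8 𝔮 h11
        · rintro (⟨⟨h6, h7, h8⟩, h9⟩ | ⟨⟨h6, h7, h8⟩, h9⟩)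
          · exact ⟨⟨h6, fun 𝔮 h𝔮 => h7 𝔮 (Set.mem_insert_of_mem 𝔭 h𝔮), h8⟩, h9⟩
          · exact ⟨⟨h6, h7, fun 𝔮 h𝔮 => h8 𝔮 (Set.mem_insert_of_mem 𝔭 h𝔮)⟩, h9⟩
      · rw [Set.disjoint_left]
        rintro L ⟨⟨-, h6, -⟩, -⟩ ⟨⟨-, -, h7⟩, -⟩
        exact h7 𝔭 (Set.mem_insert _ _) (h6 𝔭 (Set.mem_insert _ _))
    rw [Finset.coe_insert, ← sub_div, h5]
    push_cast
    congr 1
    ring

theorem half_iff (𝓑 : Set (IntermediateField K (AlgebraicClosure K))) (k : ℕ)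
    (M : IntermediateField K (AlgebraicClosure K)) :
    M ∈ HalfTowers 𝓑 (2 * k) ↔ M ∈ Pool.Agent.Q258.LQ.PT 𝓑 k := by
  constructor
  · rintro ⟨h1, h2⟩
    exact ⟨(Pool.Agent.Q258.LQ.sTow_iff 𝓑 M).1 ((tower_iff 𝓑 M).1 h1), by omega⟩
  · rintro ⟨h1, h2⟩
    exact ⟨(tower_iff 𝓑 M).2 ((Pool.Agent.Q258.LQ.sTow_iff 𝓑 M).2 h1), by omega⟩

/-- the general theorem about families of bottom fields -/
theorem general (𝓑 : Set (IntermediateField K (AlgebraicClosure K)))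
    (hB : ∀ m : ℕ, 0 < m → ∃ θ : ℝ, θ < 3 / 2 ∧ ∃ C : ℝ, ∀ X : ℝ, 1 ≤ X →
      (N 𝓑 m X : ℝ) ≤ C * X ^ θ) (k : ℕ) (hk : 0 < k) :
    ∃ w : IntermediateField K (AlgebraicClosure K) → ℝ,
      JointLaw K 𝓑 (Proper 𝓑) (2 * k) w := by
  obtain ⟨w, hw, hs, -, hmain⟩ := Pool.Agent.H419.MX.towX
    (Pool.Agent.H419.MX.QSX.t_QSX Pool.Agent.H419.MX.SQD.t_SQD) 𝓑 (base_conv 𝓑 hB) k hk
  have hset : HalfTowers 𝓑 (2 * k) = Pool.Agent.Q258.LQ.PT 𝓑 k := by
    ext M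
    exact half_iff 𝓑 k M
  refine ⟨w, joint 𝓑 (Proper 𝓑) (2 * k) (by omega) w ?_ ?_ ?_⟩
  · rw [hset]
    exact hw
  · rw [hset]
    exact hs
  · intro T hT
    rw [hset]
    refine (hmain T hT (fun M => rho K M.1 T) (fun M h => rho_eq K M.1 T)).congr fun X => ?_
    rw [N_eq _ (2 * k) (by omega)]
    congr 3
    ext L
    simp only [Set.mem_ofPred_eq, RamSet, mem_proper_iff]
    constructor
    · rintro ⟨⟨h1, h2⟩, h3⟩
      exact ⟨⟨h1, h2, fun 𝔭 h => absurd h (Set.notMem_empty 𝔭)⟩, h3⟩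
    · rintro ⟨⟨h1, h2, -⟩, h3⟩
      exact ⟨⟨h1, h2⟩, h3⟩

/-- towers -/
theorem towers {𝓑 : Set (IntermediateField K (AlgebraicClosure K))} (h : 𝓑 ∈ Bottoms K)
    (k : ℕ) (hk : 0 < k) : ∃ w : IntermediateField K (AlgebraicClosure K) → ℝ,
      JointLaw K 𝓑 {L | Tower 𝓑 L} (2 * k) w := by
  obtain ⟨w, h0, h1, h2⟩ := general 𝓑 (bottoms_conv h) k hk
  refine ⟨w, h0, h1, fun R T hT hR hd => (h2 R T hT hR hd).congr fun X => ?_⟩
  have e := N_tower h (fun L => (∀ 𝔭 ∈ T, Unramified K L 𝔭) ∧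
    ∀ 𝔭 ∈ (R : Set (Ideal (𝓞 K))), ¬ Unramified K L 𝔭) k hk X
  have e' : N (RamSet {L | Tower 𝓑 L} T R) (2 * k) X = N (RamSet (Proper 𝓑) T R) (2 * k) X := e
  rw [e']

/-- towers above `K` are towers above `𝓑` -/
theorem half_nonempty {𝓑 : Set (IntermediateField K (AlgebraicClosure K))} (h : 𝓑 ∈ Bottoms K)
    (k : ℕ) (hk : 0 < k) : (HalfTowers 𝓑 (2 * k)).Nonempty := by
  obtain ⟨M, -, -, h3, h4⟩ := Pool.Agent.H419.TW.exists_galois K (AlgebraicClosure K) k hk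
  exact ⟨M, (tower_iff 𝓑 M).2 (Pool.Agent.H419.LT.PTow_mono (bottoms_bot h)
    ((Pool.Agent.Q258.LQ.sTow_iff {⊥} M).2 h4)), by omega⟩

end

/-- **Linnik's asymptotic formula and the joint distribution of ramification.** Let `K` be a number
field and `n ≥ 2` even.
1. `ρ_M(T ∪ T') = ρ_M(T) ρ_M(T')` for disjoint `T, T'`, and `ρ_M(∅) = 1`.
2. For both families `𝓑` of bottom fields there are towers `M` of degree `n / 2` above `𝓑`, and weights
   `w_M > 0` for all of them, with a convergent sum `C`, such that for all sets `T` and all finite sets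
   `R` of odd primes with `R ∩ T = ∅` the number of the towers `L` above `𝓑` of degree `n` with
   `|d_L| ≤ X` which are unramified at all `𝔭 ∈ T` and ramified at all `𝔭 ∈ R` is `c X + o(X)`,
   `c = ∑_M w_M ρ_M(T) ∏_{𝔭 ∈ R} (1 - ρ_M({𝔭}))`; their proportion among all towers above `𝓑` of degree
   `n` tends to `c / C`.
3. The asymptotic formula in 2 holds for the nontrivial solvable extensions of towers above any family
   `𝓑` of bottom fields such that, for every `m`, there are `O(X ^ θ)`, `θ < 3 / 2`, members of degree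
   `m` with `|d| ≤ X`. -/
theorem result (K : Type) [Field K] [NumberField K] (n : ℕ) (hn : 2 ≤ n) (he : Even n) :
    (∀ (M : Type) [Field M] [Algebra K M], rho K M ∅ = 1 ∧
      ∀ T T' : Set (Ideal (𝓞 K)), Disjoint T T' → rho K M (T ∪ T') = rho K M T * rho K M T') ∧
    (∀ 𝓑 ∈ Bottoms K, (HalfTowers 𝓑 n).Nonempty ∧
      ∃ w : IntermediateField K (AlgebraicClosure K) → ℝ, JointLaw K 𝓑 {L | Tower 𝓑 L} n w ∧
        0 < ∑' M : HalfTowers 𝓑 n, w M.1 ∧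
        ∀ (R : Finset (Ideal (𝓞 K))) (T : Set (Ideal (𝓞 K))), IsOddPrimeSet K T →
          IsOddPrimeSet K (R : Set (Ideal (𝓞 K))) → Disjoint T (R : Set (Ideal (𝓞 K))) →
          Tendsto (fun X : ℝ => (N (RamSet {L | Tower 𝓑 L} T R) n X : ℝ) / N {L | Tower 𝓑 L} n X)
            atTop (nhds (const 𝓑 n w T R / ∑' M : HalfTowers 𝓑 n, w M.1))) ∧
    (∀ 𝓑 : Set (IntermediateField K (AlgebraicClosure K)),
      (∀ m : ℕ, 0 < m → ∃ θ : ℝ, θ < 3 / 2 ∧ ∃ C : ℝ, ∀ X : ℝ, 1 ≤ X →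
        (N 𝓑 m X : ℝ) ≤ C * X ^ θ) →
      ∃ w : IntermediateField K (AlgebraicClosure K) → ℝ, JointLaw K 𝓑 (Proper 𝓑) n w) := by
  obtain ⟨k, hk⟩ := he
  have hk0 : 0 < k := by omega
  obtain rfl : n = 2 * k := by omega
  refine ⟨fun M _ _ => ⟨rho_empty, fun T T' h => rho_union T T' h⟩, ?_, ?_⟩
  · intro 𝓑 h𝓑
    have hne := half_nonempty h𝓑 k hk0
    obtain ⟨w, hw, hs, hmain⟩ := towers h𝓑 k hk0
    obtain ⟨M, hM⟩ := hne
    have hpos : 0 < ∑' M : HalfTowers 𝓑 (2 * k), w M.1 :=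
      hs.tsum_pos (fun M' => (hw M'.1 M'.2).le) ⟨M, hM⟩ (hw M hM)
    refine ⟨⟨M, hM⟩, w, ⟨hw, hs, hmain⟩, hpos, ?_⟩
    intro R T hT hR hd
    have h1 := hmain R T hT hR hd
    have h2 := hmain ∅ ∅ (fun 𝔭 h => absurd h (Set.notMem_empty 𝔭))
      (fun 𝔭 h => absurd (Finset.mem_coe.1 h) (Finset.notMem_empty 𝔭)) (Set.empty_disjoint _)
    have e1 : const 𝓑 (2 * k) w ∅ ∅ = ∑' M : HalfTowers 𝓑 (2 * k), w M.1 := by
      unfold const
      refine tsum_congr fun M => ?_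
      rw [rho_empty, Finset.prod_empty, mul_one, mul_one]
    have e2 : RamSet {L : IntermediateField K (AlgebraicClosure K) | Tower 𝓑 L} ∅
        ((∅ : Finset (Ideal (𝓞 K))) : Set (Ideal (𝓞 K))) = {L | Tower 𝓑 L} := by
      ext L
      constructor
      · rintro ⟨h3, -⟩
        exact h3
      · intro h3
        exact ⟨h3, fun 𝔭 h => absurd h (Set.notMem_empty 𝔭),
          fun 𝔭 h => absurd (Finset.mem_coe.1 h) (Finset.notMem_empty 𝔭)⟩
    rw [e1, e2] at h2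
    refine (h1.div h2 hpos.ne').congr' ?_
    filter_upwards [eventually_gt_atTop (0 : ℝ)] with X hX
    have hX' : X ≠ 0 := hX.ne'
    rw [Pi.div_apply, div_div_div_cancel_right₀ hX']
  · intro 𝓑 hB
    exact general 𝓑 hB k hk0

end Pool.Agent.Results.MP_bf81c2_nt.JointRamification
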