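import Pool.Agent.H419.LT.TowFin
import Pool.Agent.H419.LT.Par

/-!
# Linnik's asymptotic formula with prescribed signatures and local conditions, all even degrees

Let `K` be a number field and `n ≥ 2` even. The fields `L` of degree `n` over `K` (in the algebraic
closure) which are obtained from `K`, or from `K` or a cubic extension of `K`, by successive Galois
extensions with solvable groups are counted by `|d_L|`. We prescribe the number `r v` of real
embeddings of `L` above every real embedding `v` of `K`, and the isomorphism class of the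
`𝓞_K`-algebra `𝓞_L / 𝔪 𝓞_L`, for a nonzero ideal `𝔪` of `𝓞_K`. The number of these fields with
`|d_L| ≤ X` is `~ c X`, and `c > 0` if and only if one quadratic extension `L` of one tower `M` of
degree `n / 2` satisfies the conditions. If only the signature is prescribed, `c > 0` for all `r` with
`r v` even and at most `n`, that is, for all signatures of extensions of degree `n`. In particular, the
number of all extensions of degree `n` with a given signature is at least `c X`, `c > 0`.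
-/

set_option autoImplicit false
set_option linter.unusedSectionVars false

open Filter NumberField

namespace Pool.Agent.Results.MP_bf81c2_nt.LocalConditions

/-- `F ⊆ L`, and `L / F` is a finite Galois extension with solvable Galois group. -/
def SolvableGalois {K : Type} [Field K] (F L : IntermediateField K (AlgebraicClosure K)) : Prop :=
  ∃ h : F ≤ L, FiniteDimensional F (IntermediateField.extendScalars h) ∧
    IsGalois F (IntermediateField.extendScalars h) ∧
    Group.IsSolvable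
      ((IntermediateField.extendScalars h) ≃ₐ[F] (IntermediateField.extendScalars h))

/-- `L` is obtained from a member of `𝓑` by (zero or more) successive solvable Galois extensions. -/
inductive Tower {K : Type} [Field K] (𝓑 : Set (IntermediateField K (AlgebraicClosure K))) :
    IntermediateField K (AlgebraicClosure K) → Prop
  | base (F : IntermediateField K (AlgebraicClosure K)) : F ∈ 𝓑 → Tower 𝓑 F
  | step (F L : IntermediateField K (AlgebraicClosure K)) :
      Tower 𝓑 F → SolvableGalois F L → Tower 𝓑 L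

/-- `L` is a nontrivial solvable Galois extension of a tower `F` above a member of `𝓑`. -/
def Proper {K : Type} [Field K] (𝓑 : Set (IntermediateField K (AlgebraicClosure K))) :
    Set (IntermediateField K (AlgebraicClosure K)) :=
  {L | ∃ F : IntermediateField K (AlgebraicClosure K), Tower 𝓑 F ∧ F ≠ L ∧ SolvableGalois F L}

/-- The two families of bottom fields: `K`, and `K` together with all its cubic extensions. -/
def Bottoms (K : Type) [Field K] : Set (Set (IntermediateField K (AlgebraicClosure K))) :=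
  {𝓑 | 𝓑 = {⊥} ∨ 𝓑 = {F : IntermediateField K (AlgebraicClosure K) |
    F = ⊥ ∨ Module.finrank K F = 3}}

/-- The number of real embeddings of `L` which extend the real embedding `v` of `K`. -/
noncomputable def realAbove (K L : Type) [Field K] [Field L] [Algebra K L] (v : K →+* ℝ) : ℕ :=
  Nat.card {φ : L →+* ℝ // φ.comp (algebraMap K L) = v}

/-- `L` has `r v` real embeddings above `v`, for every real embedding `v` of `K`. -/
def HasSignature (K : Type) [Field K] (r : (K →+* ℝ) → ℕ) (L : Type) [Field L] [Algebra K L] :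
    Prop :=
  ∀ v : K →+* ℝ, realAbove K L v = r v

/-- `𝓞_L / 𝔪 𝓞_L ≅ R` as algebras over `𝓞_K`. -/
def HasLoc (K : Type) [Field K] (𝔪 : Ideal (𝓞 K)) (R : Type) [CommRing R] [Algebra (𝓞 K) R]
    (L : Type) [Field L] [Algebra K L] : Prop :=
  Nonempty ((𝓞 L ⧸ 𝔪.map (algebraMap (𝓞 K) (𝓞 L))) ≃ₐ[𝓞 K] R)

/-- `N(S, n; X)`: the number of the fields `L` in `S` of degree `n` over `K` with `|d_L| ≤ X`. -/
noncomputable def N {K : Type} [Field K] (S : Set (IntermediateField K (AlgebraicClosure K)))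
    (n : ℕ) (X : ℝ) : ℕ :=
  Set.ncard {L : IntermediateField K (AlgebraicClosure K) | L ∈ S ∧ Module.finrank K L = n ∧
    ∃ h : NumberField L, ((|@NumberField.discr L _ h| : ℤ) : ℝ) ≤ X}

section

variable {K : Type} [Field K] [NumberField K]

theorem tower_iff (𝓑 : Set (IntermediateField K (AlgebraicClosure K)))
    (L : IntermediateField K (AlgebraicClosure K)) :
    Tower 𝓑 L ↔ Pool.Agent.Q258.LQ.STow 𝓑 L := by
  constructor
  · intro h
    induction h with
    | base F hF => exact Pool.Agent.Q258.LQ.STow.base F hF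
    | step F L _ hs ih => exact Pool.Agent.Q258.LQ.STow.step F L ih hs
  · intro h
    induction h with
    | base F hF => exact Tower.base F hF
    | step F L _ hs ih => exact Tower.step F L ih hs

theorem mem_proper_iff (𝓑 : Set (IntermediateField K (AlgebraicClosure K)))
    (L : IntermediateField K (AlgebraicClosure K)) :
    L ∈ Proper 𝓑 ↔ L ∈ Pool.Agent.Q258.LQ.SAb 𝓑 := by
  constructor
  · rintro ⟨F, h1, h2, h3⟩
    exact ⟨F, (tower_iff 𝓑 F).1 h1, h2, h3⟩
  · rintro ⟨F, h1, h2, h3⟩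
    exact ⟨F, (tower_iff 𝓑 F).2 h1, h2, h3⟩

theorem N_eq (S : Set (IntermediateField K (AlgebraicClosure K))) (n : ℕ) (hn : 0 < n) (X : ℝ) :
    N S n X = Set.ncard {L : IntermediateField K (AlgebraicClosure K) | L ∈ S ∧
      Module.finrank K L = n ∧ Pool.Agent.TH444.ML.dsc L ≤ X} := by
  unfold N
  congr 1
  ext L
  simp only [Set.mem_ofPred_eq]
  constructor
  · rintro ⟨h1, h2, h3⟩
    exact ⟨h1, h2, (Pool.Agent.Q258.LQ.dsc_le_iff n hn L h2 X).1 h3⟩
  · rintro ⟨h1, h2, h3⟩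
    exact ⟨h1, h2, (Pool.Agent.Q258.LQ.dsc_le_iff n hn L h2 X).2 h3⟩

/-- the condition on the family of bottom fields -/
theorem base_conv (𝓑 : Set (IntermediateField K (AlgebraicClosure K)))
    (h : ∀ m : ℕ, 0 < m → ∃ θ : ℝ, θ < 3 / 2 ∧ ∃ C : ℝ, ∀ X : ℝ, 1 ≤ X →
      (N 𝓑 m X : ℝ) ≤ C * X ^ θ) :
    ∀ m : ℕ, 0 < m → ∃ θ : ℝ, θ < 3 / 2 ∧ ∃ C : ℝ, ∀ X : ℝ, 1 ≤ X →
      (Set.ncard {L : IntermediateField K (AlgebraicClosure K) | L ∈ 𝓑 ∧
        Module.finrank K L = m ∧ Pool.Agent.TH444.ML.dsc L ≤ X} : ℝ) ≤ C * X ^ θ := by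
  intro m hm
  obtain ⟨θ, hθ, C, hC⟩ := h m hm
  refine ⟨θ, hθ, C, fun X hX => ?_⟩
  rw [← N_eq 𝓑 m hm X]
  exact hC X hX

/-- the general theorem about families of bottom fields -/
theorem general (𝓑 : Set (IntermediateField K (AlgebraicClosure K)))
    (hB : ∀ m : ℕ, 0 < m → ∃ θ : ℝ, θ < 3 / 2 ∧ ∃ C : ℝ, ∀ X : ℝ, 1 ≤ X →
      (N 𝓑 m X : ℝ) ≤ C * X ^ θ) (k : ℕ) (hk : 0 < k)
    (𝔪 : Ideal (𝓞 K)) (h𝔪 : 𝔪 ≠ ⊥) (R : Type) [CommRing R] [Algebra (𝓞 K) R]
    (r : (K →+* ℝ) → ℕ) :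
    ∃ c : ℝ, 0 ≤ c ∧
      Tendsto (fun X : ℝ => (N {L | L ∈ Proper 𝓑 ∧ HasLoc K 𝔪 R L ∧ HasSignature K r L}
        (2 * k) X : ℝ) / X) atTop (nhds c) ∧
      (0 < c ↔ ∃ M L : IntermediateField K (AlgebraicClosure K), Tower 𝓑 M ∧ M ≤ L ∧
        Module.finrank K M = k ∧ Module.finrank K L = 2 * k ∧ HasLoc K 𝔪 R L ∧
        HasSignature K r L) := by
  obtain ⟨c, hc0, hc1, hc2⟩ := Pool.Agent.H419.LT.fin_evenJ 𝓑
    (base_conv 𝓑 hB) k hk 𝔪 h𝔪 R r
  refine ⟨c, hc0, ?_, hc2.trans ?_⟩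
  · refine hc1.congr fun X => ?_
    rw [N_eq _ (2 * k) (by omega)]
    congr 3
    ext L
    simp only [Set.mem_ofPred_eq, mem_proper_iff]
    rfl
  · constructor
    · rintro ⟨M, L, h1, h2, h3, h4, h5⟩
      exact ⟨M, L, (tower_iff 𝓑 M).2 h1, h3, h2, h4, h5.1, h5.2⟩
    · rintro ⟨M, L, h1, h2, h3, h4, h5, h6⟩
      exact ⟨M, L, (tower_iff 𝓑 M).1 h1, h3, h2, h4, h5, h6⟩

theorem bottoms_conv {𝓑 : Set (IntermediateField K (AlgebraicClosure K))} (h : 𝓑 ∈ Bottoms K) :
    ∀ m : ℕ, 0 < m → ∃ θ : ℝ, θ < 3 / 2 ∧ ∃ C : ℝ, ∀ X : ℝ, 1 ≤ X → (N 𝓑 m X : ℝ) ≤ C * X ^ θ := by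
  intro m hm
  rcases h with h | h
  · obtain ⟨θ, h1, C, hC⟩ := Pool.Agent.Q258.LQ.base_bot (K := K) (Ω := AlgebraicClosure K) m hm
    refine ⟨θ, h1, C, fun X hX => ?_⟩
    rw [h, N_eq _ m hm X]
    exact hC X hX
  · obtain ⟨θ, h1, C, hC⟩ := Pool.Agent.Q258.LQ.base_cubic (K := K) (Ω := AlgebraicClosure K) m hm
    refine ⟨θ, h1, C, fun X hX => ?_⟩
    rw [h, N_eq _ m hm X]
    exact hC X hX

theorem bottoms_bot {𝓑 : Set (IntermediateField K (AlgebraicClosure K))} (h : 𝓑 ∈ Bottoms K) :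
    ({⊥} : Set (IntermediateField K (AlgebraicClosure K))) ⊆ 𝓑 := by
  intro F hF
  rw [Set.mem_singleton_iff] at hF
  rcases h with h | h
  · rw [h, hF]
    exact Set.mem_singleton _
  · rw [h, hF]
    exact Or.inl rfl

/-- the towers of even degree are proper -/
theorem tower_proper {𝓑 : Set (IntermediateField K (AlgebraicClosure K))} (h : 𝓑 ∈ Bottoms K)
    (L : IntermediateField K (AlgebraicClosure K)) (k : ℕ) (hk : 0 < k)
    (hL : Module.finrank K L = 2 * k) : Tower 𝓑 L ↔ L ∈ Proper 𝓑 := by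
  rw [tower_iff, mem_proper_iff]
  constructor
  · intro h1
    refine Pool.Agent.Q258.LQ.sAb_of_degree h1 ?_
    intro h2
    rcases h with h | h
    · rw [h, Set.mem_singleton_iff] at h2
      rw [h2, IntermediateField.finrank_bot] at hL
      omega
    · rw [h] at h2
      rcases h2 with h2 | h2
      · rw [h2, IntermediateField.finrank_bot] at hL
        omega
      · rw [h2] at hL
        omega
  · intro h1
    exact Pool.Agent.Q258.LQ.sTow_of_sAb h1

theorem N_tower {𝓑 : Set (IntermediateField K (AlgebraicClosure K))} (h : 𝓑 ∈ Bottoms K)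
    (P : IntermediateField K (AlgebraicClosure K) → Prop) (k : ℕ) (hk : 0 < k) (X : ℝ) :
    N {L | Tower 𝓑 L ∧ P L} (2 * k) X = N {L | L ∈ Proper 𝓑 ∧ P L} (2 * k) X := by
  unfold N
  congr 1
  ext L
  simp only [Set.mem_ofPred_eq]
  constructor
  · rintro ⟨⟨h1, h2⟩, h3, h4⟩
    exact ⟨⟨(tower_proper h L k hk h3).1 h1, h2⟩, h3, h4⟩
  · rintro ⟨⟨h1, h2⟩, h3, h4⟩
    exact ⟨⟨(tower_proper h L k hk h3).2 h1, h2⟩, h3, h4⟩

theorem N_mono (S S' : Set (IntermediateField K (AlgebraicClosure K))) (h : S ⊆ S') (n : ℕ)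
    (hn : 0 < n) (X : ℝ) : N S n X ≤ N S' n X := by
  rw [N_eq S n hn, N_eq S' n hn]
  refine Set.ncard_le_ncard (fun L hL => ⟨h hL.1, hL.2⟩) ?_
  exact (Pool.Agent.Q258.LQ.finite_dsc n hn X).subset fun L hL => hL.2

/-- towers with conditions -/
theorem towers {𝓑 : Set (IntermediateField K (AlgebraicClosure K))} (h : 𝓑 ∈ Bottoms K)
    (k : ℕ) (hk : 0 < k) (𝔪 : Ideal (𝓞 K)) (h𝔪 : 𝔪 ≠ ⊥) (R : Type) [CommRing R]
    [Algebra (𝓞 K) R] (r : (K →+* ℝ) → ℕ) :
    ∃ c : ℝ, 0 ≤ c ∧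
      Tendsto (fun X : ℝ => (N {L | Tower 𝓑 L ∧ HasLoc K 𝔪 R L ∧ HasSignature K r L}
        (2 * k) X : ℝ) / X) atTop (nhds c) ∧
      (0 < c ↔ ∃ M L : IntermediateField K (AlgebraicClosure K), Tower 𝓑 M ∧ M ≤ L ∧
        Module.finrank K M = k ∧ Module.finrank K L = 2 * k ∧ HasLoc K 𝔪 R L ∧
        HasSignature K r L) := by
  obtain ⟨c, h0, h1, h2⟩ := general 𝓑 (bottoms_conv h) k hk 𝔪 h𝔪 R r
  refine ⟨c, h0, h1.congr fun X => ?_, h2⟩
  rw [N_tower h _ k hk X]

/-- towers with a prescribed signature -/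
theorem towers_sig {𝓑 : Set (IntermediateField K (AlgebraicClosure K))} (h : 𝓑 ∈ Bottoms K)
    (k : ℕ) (hk : 0 < k) (r : (K →+* ℝ) → ℕ) (hr : ∀ v, Even (r v) ∧ r v ≤ 2 * k) :
    ∃ c : ℝ, 0 < c ∧
      Tendsto (fun X : ℝ => (N {L | Tower 𝓑 L ∧ HasSignature K r L} (2 * k) X : ℝ) / X)
        atTop (nhds c) := by
  obtain ⟨c, -, h1, h2⟩ := towers h k hk ⊤ top_ne_bot PUnit r
  refine ⟨c, ?_, h1.congr fun X => ?_⟩
  · obtain ⟨M, L, h3, h4, h5, h6, h7⟩ := Pool.Agent.H419.LT.exists_sigJ (K := K)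
      (Ω := AlgebraicClosure K) k hk r hr
    exact h2.2 ⟨M, L, (tower_iff 𝓑 M).2
      (Pool.Agent.H419.LT.PTow_mono (bottoms_bot h) h3), h5, h4, h6,
      Pool.Agent.H419.LT.ty_top K L, h7⟩
  · congr 3
    ext L
    simp only [Set.mem_ofPred_eq]
    constructor
    · rintro ⟨h3, -, h4⟩
      exact ⟨h3, h4⟩
    · rintro ⟨h3, h4⟩
      exact ⟨h3, Pool.Agent.H419.LT.ty_top K L, h4⟩

/-- from a positive limit to a lower bound -/
theorem lower_of_lim (S : Set (IntermediateField K (AlgebraicClosure K))) (n : ℕ) (c : ℝ)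
    (hc : 0 < c) (h : Tendsto (fun X : ℝ => (N S n X : ℝ) / X) atTop (nhds c)) :
    ∀ᶠ X : ℝ in atTop, c / 2 * X ≤ N S n X := by
  filter_upwards [h.eventually (lt_mem_nhds (half_lt_self hc)), eventually_gt_atTop (0 : ℝ)]
    with X h1 h2
  exact ((lt_div_iff₀ h2).1 h1).le

end

/-- **Linnik's asymptotic formula with prescribed signatures and local conditions.** Let `K` be a
number field, `n ≥ 2` even and `𝓑` one of the two families of bottom fields.
1. For every nonzero ideal `𝔪` of `𝓞_K`, every `𝓞_K`-algebra `R` and all numbers `r v`, the number of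
   the towers `L` above `𝓑` of degree `n` with `𝓞_L / 𝔪 𝓞_L ≅ R`, with `r v` real embeddings above every
   real embedding `v` of `K`, and with `|d_L| ≤ X`, divided by `X`, tends to a limit `c ≥ 0`; `c > 0` if
   and only if one quadratic extension `L`, of degree `n` over `K`, of one tower `M` satisfies these
   conditions.
2. If every `r v` is even and at most `n`, the number of the towers `L` above `𝓑` of degree `n` with
   `r v` real embeddings above every `v` and `|d_L| ≤ X` is `~ c X` with `c > 0`.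
3. The numbers `r v` of every extension `L` of `K` of degree `n` are even and at most `n`, and the number
   of ALL extensions `L` of degree `n` with given even numbers `r v ≤ n` and `|d_L| ≤ X` is at least
   `c X` for large `X`, `c > 0`.
4. Assertion 1 holds for the nontrivial solvable extensions of towers above any family `𝓑` of bottom
   fields such that, for every `m`, there are `O(X ^ θ)`, `θ < 3 / 2`, members of degree `m` with
   `|d| ≤ X`. -/
theorem result (K : Type) [Field K] [NumberField K] (n : ℕ) (hn : 2 ≤ n) (he : Even n) :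
    (∀ 𝓑 ∈ Bottoms K, ∀ (𝔪 : Ideal (𝓞 K)), 𝔪 ≠ ⊥ → ∀ (R : Type) [CommRing R]
      [Algebra (𝓞 K) R] (r : (K →+* ℝ) → ℕ),
      ∃ c : ℝ, 0 ≤ c ∧
        Tendsto (fun X : ℝ => (N {L | Tower 𝓑 L ∧ HasLoc K 𝔪 R L ∧ HasSignature K r L}
          n X : ℝ) / X) atTop (nhds c) ∧
        (0 < c ↔ ∃ M L : IntermediateField K (AlgebraicClosure K), Tower 𝓑 M ∧ M ≤ L ∧
          2 * Module.finrank K M = n ∧ Module.finrank K L = n ∧ HasLoc K 𝔪 R L ∧
          HasSignature K r L)) ∧
    (∀ 𝓑 ∈ Bottoms K, ∀ r : (K →+* ℝ) → ℕ, (∀ v, Even (r v) ∧ r v ≤ n) →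
      ∃ c : ℝ, 0 < c ∧
        Tendsto (fun X : ℝ => (N {L | Tower 𝓑 L ∧ HasSignature K r L} n X : ℝ) / X)
          atTop (nhds c)) ∧
    ((∀ L : IntermediateField K (AlgebraicClosure K), Module.finrank K L = n → ∀ v : K →+* ℝ,
        Even (realAbove K L v) ∧ realAbove K L v ≤ n) ∧
      ∀ r : (K →+* ℝ) → ℕ, (∀ v, Even (r v) ∧ r v ≤ n) →
        ∃ c : ℝ, 0 < c ∧ ∀ᶠ X : ℝ in atTop, c * X ≤
          N {L : IntermediateField K (AlgebraicClosure K) | HasSignature K r L} n X) ∧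
    (∀ 𝓑 : Set (IntermediateField K (AlgebraicClosure K)),
      (∀ m : ℕ, 0 < m → ∃ θ : ℝ, θ < 3 / 2 ∧ ∃ C : ℝ, ∀ X : ℝ, 1 ≤ X →
        (N 𝓑 m X : ℝ) ≤ C * X ^ θ) →
      ∀ (𝔪 : Ideal (𝓞 K)), 𝔪 ≠ ⊥ → ∀ (R : Type) [CommRing R] [Algebra (𝓞 K) R]
        (r : (K →+* ℝ) → ℕ),
      ∃ c : ℝ, 0 ≤ c ∧
        Tendsto (fun X : ℝ => (N {L | L ∈ Proper 𝓑 ∧ HasLoc K 𝔪 R L ∧ HasSignature K r L}
          n X : ℝ) / X) atTop (nhds c) ∧
        (0 < c ↔ ∃ M L : IntermediateField K (AlgebraicClosure K), Tower 𝓑 M ∧ M ≤ L ∧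
          2 * Module.finrank K M = n ∧ Module.finrank K L = n ∧ HasLoc K 𝔪 R L ∧
          HasSignature K r L)) := by
  obtain ⟨k, hk⟩ := he
  have hk0 : 0 < k := by omega
  obtain rfl : n = 2 * k := by omega
  have e : ∀ m : ℕ, 2 * m = 2 * k ↔ m = k := fun m => by omega
  simp only [e]
  refine ⟨?_, ?_, ⟨?_, ?_⟩, ?_⟩
  · intro 𝓑 h𝓑 𝔪 h𝔪 R _ _ r
    exact towers h𝓑 k hk0 𝔪 h𝔪 R r
  · intro 𝓑 h𝓑 r hr
    exact towers_sig h𝓑 k hk0 r hr
  · intro L hL v
    have hfd : FiniteDimensional K L := FiniteDimensional.of_finrank_pos (by omega)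
    have hnf : NumberField L := Pool.Agent.TH444.ML.nf_of_fd L
    have h := Pool.Agent.H419.LT.rl_parity (M := K) (L := L) v
    rw [hL] at h
    refine ⟨?_, h.1⟩
    have h2 : (2 * k) % 2 = Pool.Agent.H419.LT.rl K L v % 2 := h.2
    rw [Nat.mul_mod_right] at h2
    exact Nat.even_iff.2 h2.symm
  · intro r hr
    obtain ⟨c, hc, hlim⟩ := towers_sig (K := K) (𝓑 := {⊥}) (Or.inl rfl) k hk0 r hr
    refine ⟨c / 2, by positivity, ?_⟩
    filter_upwards [lower_of_lim _ _ c hc hlim] with X hX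
    refine hX.trans ?_
    exact_mod_cast N_mono {L | Tower {⊥} L ∧ HasSignature K r L}
      {L : IntermediateField K (AlgebraicClosure K) | HasSignature K r L}
      (fun L hL => hL.2) (2 * k) (by omega) X
  · intro 𝓑 hB 𝔪 h𝔪 R _ _ r
    exact general 𝓑 hB k hk0 𝔪 h𝔪 R r

end Pool.Agent.Results.MP_bf81c2_nt.LocalConditions
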