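import Pool.Agent.H419.TW.Sum
import Pool.Agent.H419.LT.TowSig

/-!
# Linnik's asymptotic formula and ramification conditions at infinitely many primes

Let `K` be a number field and `n ≥ 2` even. The fields `L` of degree `n` over `K` (in the algebraic
closure) which are obtained from `K`, or from `K` or a cubic extension of `K`, by successive Galois
extensions with solvable groups are counted by `|d_L|`. For EVERY set `T` of primes of `K` the number of
these fields which are unramified at all `𝔭 ∈ T`, with `|d_L| ≤ X`, is `c X + o(X)`, and `c > 0` if and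
only if there is such a field `M` of degree `n / 2` which is unramified at all `𝔭 ∈ T` and for which the
sum of `1 / N 𝔓` over the primes `𝔓` of `M` above the primes in `T` converges. This is the case if the
sum of `1 / N 𝔭` over `𝔭 ∈ T` converges; then the number of ALL fields `L` of degree `n` over `K` which
are unramified at all `𝔭 ∈ T`, with `|d_L| ≤ X`, is at least `c' X`. For all even `n ≥ 4` the latter holds
also for certain sets `T` for which the sum of `1 / N 𝔭` diverges.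
-/

set_option autoImplicit false
set_option linter.unusedSectionVars false

open Filter NumberField

namespace Pool.Agent.Results.MP_bf81c2_nt.SparseRamification

/-- `F ⊆ L`, and `L / F` is a finite Galois extension with solvable Galois group. -/
def SolvableGalois {K : Type} [Field K] (F L : IntermediateField K (AlgebraicClosure K)) : Prop :=
  ∃ h : F ≤ L, FiniteDimensional F (IntermediateField.extendScalars h) ∧
    IsGalois F (IntermediateField.extendScalars h) ∧
    Group.IsSolvable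
      ((IntermediateField.extendScalars h) ≃ₐ[F] (IntermediateField.extendScalars h))

/-- `L` is obtained from a member of `𝓑` by (zero or more) successive solvable Galois extensions. -/
inductive Tower {K : Type} [Field K] (𝓑 : Set (IntermediateField K (AlgebraicClosure K))) :
    IntermediateField K (AlgebraicClosure K) → Prop
  | base (F : IntermediateField K (AlgebraicClosure K)) : F ∈ 𝓑 → Tower 𝓑 F
  | step (F L : IntermediateField K (AlgebraicClosure K)) :
      Tower 𝓑 F → SolvableGalois F L → Tower 𝓑 L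

/-- `L` is a nontrivial solvable Galois extension of a tower `F` above a member of `𝓑`. -/
def Proper {K : Type} [Field K] (𝓑 : Set (IntermediateField K (AlgebraicClosure K))) :
    Set (IntermediateField K (AlgebraicClosure K)) :=
  {L | ∃ F : IntermediateField K (AlgebraicClosure K), Tower 𝓑 F ∧ F ≠ L ∧ SolvableGalois F L}

/-- The two families of bottom fields: `K`, and `K` together with all its cubic extensions. -/
def Bottoms (K : Type) [Field K] : Set (Set (IntermediateField K (AlgebraicClosure K))) :=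
  {𝓑 | 𝓑 = {⊥} ∨ 𝓑 = {F : IntermediateField K (AlgebraicClosure K) |
    F = ⊥ ∨ Module.finrank K F = 3}}

/-- `L / K` is unramified at the prime `𝔭` of `K`: the ring `𝓞_L / 𝔭 𝓞_L` is reduced. -/
def Unramified (K : Type) [Field K] (L : Type) [Field L] [Algebra K L] (𝔭 : Ideal (𝓞 K)) : Prop :=
  IsReduced (𝓞 L ⧸ 𝔭.map (algebraMap (𝓞 K) (𝓞 L)))

/-- The prime `𝔭` of `K` is totally split in `M`: there are `[M : K]` primes of `M` above `𝔭`. -/
def TotallySplit (K : Type) [Field K] (M : Type) [Field M] [Algebra K M] (𝔭 : Ideal (𝓞 K)) :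
    Prop :=
  Set.ncard (𝔭.primesOver (𝓞 M)) = Module.finrank K M

/-- A set of (nonzero) primes of `K`. -/
def IsPrimeSet (K : Type) [Field K] (T : Set (Ideal (𝓞 K))) : Prop :=
  ∀ 𝔭 ∈ T, 𝔭.IsPrime ∧ 𝔭 ≠ ⊥

/-- The primes of `M` above the primes in `T`. -/
def PrimesAbove (K M : Type) [Field K] [Field M] [Algebra K M] (T : Set (Ideal (𝓞 K))) :
    Set (Ideal (𝓞 M)) :=
  {𝔓 : Ideal (𝓞 M) | 𝔓.IsPrime ∧ 𝔓.comap (algebraMap (𝓞 K) (𝓞 M)) ∈ T}

/-- The sum of `1 / N 𝔓` over all `𝔓 ∈ W` converges. Here `N 𝔓` is the number of elements of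
`𝓞_M / 𝔓`. -/
def IsSparse (M : Type) [Field M] (W : Set (Ideal (𝓞 M))) : Prop :=
  Summable (fun 𝔓 : W => (1 : ℝ) / Nat.card (𝓞 M ⧸ 𝔓.1))

/-- The primes of `K` which are unramified and not totally split in `M`. -/
def NonSplit (K : Type) [Field K] (M : IntermediateField K (AlgebraicClosure K)) :
    Set (Ideal (𝓞 K)) :=
  {𝔭 | (𝔭.IsPrime ∧ 𝔭 ≠ ⊥) ∧ Unramified K M 𝔭 ∧ ¬ TotallySplit K M 𝔭}

/-- The fields which are unramified at all `𝔭 ∈ T`. -/
def UnramifiedAt {K : Type} [Field K] (T : Set (Ideal (𝓞 K))) :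
    Set (IntermediateField K (AlgebraicClosure K)) :=
  {L | ∀ 𝔭 ∈ T, Unramified K L 𝔭}

/-- `N(S, n; X)`: the number of the fields `L` in `S` of degree `n` over `K` with `|d_L| ≤ X`. -/
noncomputable def N {K : Type} [Field K] (S : Set (IntermediateField K (AlgebraicClosure K)))
    (n : ℕ) (X : ℝ) : ℕ :=
  Set.ncard {L : IntermediateField K (AlgebraicClosure K) | L ∈ S ∧ Module.finrank K L = n ∧
    ∃ h : NumberField L, ((|@NumberField.discr L _ h| : ℤ) : ℝ) ≤ X}

/-- The number of the fields in `S`, of degree `n`, which are unramified at all `𝔭 ∈ T` is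
`c X + o(X)`, and `c > 0` if and only if there is a tower `M` of degree `n / 2` above `𝓑` which is
unramified at all `𝔭 ∈ T` and for which the sum of `1 / N 𝔓` over the primes `𝔓` of `M` above the primes
in `T` converges. -/
def RamificationLaw (K : Type) [Field K] [NumberField K]
    (𝓑 S : Set (IntermediateField K (AlgebraicClosure K))) (n : ℕ) (T : Set (Ideal (𝓞 K)))
    (c : ℝ) : Prop :=
  0 ≤ c ∧ Tendsto (fun X : ℝ => (N {L | L ∈ S ∧ L ∈ UnramifiedAt T} n X : ℝ) / X) atTop (nhds c) ∧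
    (0 < c ↔ ∃ M : IntermediateField K (AlgebraicClosure K), Tower 𝓑 M ∧
      2 * Module.finrank K M = n ∧ M ∈ UnramifiedAt T ∧ IsSparse M (PrimesAbove K M T))

section

variable {K : Type} [Field K] [NumberField K]

theorem tower_iff (𝓑 : Set (IntermediateField K (AlgebraicClosure K)))
    (L : IntermediateField K (AlgebraicClosure K)) :
    Tower 𝓑 L ↔ Pool.Agent.Q258.LQ.STow 𝓑 L := by
  constructor
  · intro h
    induction h with
    | base F hF => exact Pool.Agent.Q258.LQ.STow.base F hF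
    | step F L _ hs ih => exact Pool.Agent.Q258.LQ.STow.step F L ih hs
  · intro h
    induction h with
    | base F hF => exact Tower.base F hF
    | step F L _ hs ih => exact Tower.step F L ih hs

theorem mem_proper_iff (𝓑 : Set (IntermediateField K (AlgebraicClosure K)))
    (L : IntermediateField K (AlgebraicClosure K)) :
    L ∈ Proper 𝓑 ↔ L ∈ Pool.Agent.Q258.LQ.SAb 𝓑 := by
  constructor
  · rintro ⟨F, h1, h2, h3⟩
    exact ⟨F, (tower_iff 𝓑 F).1 h1, h2, h3⟩
  · rintro ⟨F, h1, h2, h3⟩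
    exact ⟨F, (tower_iff 𝓑 F).2 h1, h2, h3⟩

theorem N_eq (S : Set (IntermediateField K (AlgebraicClosure K))) (n : ℕ) (hn : 0 < n) (X : ℝ) :
    N S n X = Set.ncard {L : IntermediateField K (AlgebraicClosure K) | L ∈ S ∧
      Module.finrank K L = n ∧ Pool.Agent.TH444.ML.dsc L ≤ X} := by
  unfold N
  congr 1
  ext L
  simp only [Set.mem_ofPred_eq]
  constructor
  · rintro ⟨h1, h2, h3⟩
    exact ⟨h1, h2, (Pool.Agent.Q258.LQ.dsc_le_iff n hn L h2 X).1 h3⟩
  · rintro ⟨h1, h2, h3⟩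
    exact ⟨h1, h2, (Pool.Agent.Q258.LQ.dsc_le_iff n hn L h2 X).2 h3⟩

/-- the condition on the family of bottom fields -/
theorem base_conv (𝓑 : Set (IntermediateField K (AlgebraicClosure K)))
    (h : ∀ m : ℕ, 0 < m → ∃ θ : ℝ, θ < 3 / 2 ∧ ∃ C : ℝ, ∀ X : ℝ, 1 ≤ X →
      (N 𝓑 m X : ℝ) ≤ C * X ^ θ) :
    ∀ m : ℕ, 0 < m → ∃ θ : ℝ, θ < 3 / 2 ∧ ∃ C : ℝ, ∀ X : ℝ, 1 ≤ X →
      (Set.ncard {L : IntermediateField K (AlgebraicClosure K) | L ∈ 𝓑 ∧
        Module.finrank K L = m ∧ Pool.Agent.TH444.ML.dsc L ≤ X} : ℝ) ≤ C * X ^ θ := by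
  intro m hm
  obtain ⟨θ, hθ, C, hC⟩ := h m hm
  refine ⟨θ, hθ, C, fun X hX => ?_⟩
  rw [← N_eq 𝓑 m hm X]
  exact hC X hX

theorem bottoms_conv {𝓑 : Set (IntermediateField K (AlgebraicClosure K))} (h : 𝓑 ∈ Bottoms K) :
    ∀ m : ℕ, 0 < m → ∃ θ : ℝ, θ < 3 / 2 ∧ ∃ C : ℝ, ∀ X : ℝ, 1 ≤ X → (N 𝓑 m X : ℝ) ≤ C * X ^ θ := by
  intro m hm
  rcases h with h | h
  · obtain ⟨θ, h1, C, hC⟩ := Pool.Agent.Q258.LQ.base_bot (K := K) (Ω := AlgebraicClosure K) m hm
    refine ⟨θ, h1, C, fun X hX => ?_⟩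
    rw [h, N_eq _ m hm X]
    exact hC X hX
  · obtain ⟨θ, h1, C, hC⟩ := Pool.Agent.Q258.LQ.base_cubic (K := K) (Ω := AlgebraicClosure K) m hm
    refine ⟨θ, h1, C, fun X hX => ?_⟩
    rw [h, N_eq _ m hm X]
    exact hC X hX

theorem bottoms_bot {𝓑 : Set (IntermediateField K (AlgebraicClosure K))} (h : 𝓑 ∈ Bottoms K) :
    ({⊥} : Set (IntermediateField K (AlgebraicClosure K))) ⊆ 𝓑 := by
  intro F hF
  rw [Set.mem_singleton_iff] at hF
  rcases h with h | h
  · rw [h, hF]
    exact Set.mem_singleton _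
  · rw [h, hF]
    exact Or.inl rfl

/-- the towers of even degree are proper -/
theorem tower_proper {𝓑 : Set (IntermediateField K (AlgebraicClosure K))} (h : 𝓑 ∈ Bottoms K)
    (L : IntermediateField K (AlgebraicClosure K)) (k : ℕ) (hk : 0 < k)
    (hL : Module.finrank K L = 2 * k) : Tower 𝓑 L ↔ L ∈ Proper 𝓑 := by
  rw [tower_iff, mem_proper_iff]
  constructor
  · intro h1
    refine Pool.Agent.Q258.LQ.sAb_of_degree h1 ?_
    intro h2
    rcases h with h | h
    · rw [h, Set.mem_singleton_iff] at h2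
      rw [h2, IntermediateField.finrank_bot] at hL
      omega
    · rw [h] at h2
      rcases h2 with h2 | h2
      · rw [h2, IntermediateField.finrank_bot] at hL
        omega
      · rw [h2] at hL
        omega
  · intro h1
    exact Pool.Agent.Q258.LQ.sTow_of_sAb h1

theorem N_tower {𝓑 : Set (IntermediateField K (AlgebraicClosure K))} (h : 𝓑 ∈ Bottoms K)
    (P : IntermediateField K (AlgebraicClosure K) → Prop) (k : ℕ) (hk : 0 < k) (X : ℝ) :
    N {L | Tower 𝓑 L ∧ P L} (2 * k) X = N {L | L ∈ Proper 𝓑 ∧ P L} (2 * k) X := by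
  unfold N
  congr 1
  ext L
  simp only [Set.mem_ofPred_eq]
  constructor
  · rintro ⟨⟨h1, h2⟩, h3, h4⟩
    exact ⟨⟨(tower_proper h L k hk h3).1 h1, h2⟩, h3, h4⟩
  · rintro ⟨⟨h1, h2⟩, h3, h4⟩
    exact ⟨⟨(tower_proper h L k hk h3).2 h1, h2⟩, h3, h4⟩

theorem N_mono (S S' : Set (IntermediateField K (AlgebraicClosure K))) (h : S ⊆ S') (n : ℕ)
    (hn : 0 < n) (X : ℝ) : N S n X ≤ N S' n X := by
  rw [N_eq S n hn, N_eq S' n hn]
  refine Set.ncard_le_ncard (fun L hL => ⟨h hL.1, hL.2⟩) ?_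
  exact (Pool.Agent.Q258.LQ.finite_dsc n hn X).subset fun L hL => hL.2

theorem sparse_iff (M : Type) [Field M] [NumberField M] (W : Set (Ideal (𝓞 M))) :
    IsSparse M W ↔ Summable (fun 𝔓 : W => (1 : ℝ) / Ideal.absNorm 𝔓.1) := by
  have h : ∀ 𝔓 : Ideal (𝓞 M), Nat.card (𝓞 M ⧸ 𝔓) = Ideal.absNorm 𝔓 := fun 𝔓 => by
    rw [Ideal.absNorm_apply, Submodule.cardQuot_apply]
  unfold IsSparse
  simp only [h]

/-- the general theorem about families of bottom fields -/
theorem general (𝓑 : Set (IntermediateField K (AlgebraicClosure K)))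
    (hB : ∀ m : ℕ, 0 < m → ∃ θ : ℝ, θ < 3 / 2 ∧ ∃ C : ℝ, ∀ X : ℝ, 1 ≤ X →
      (N 𝓑 m X : ℝ) ≤ C * X ^ θ) (k : ℕ) (hk : 0 < k)
    (T : Set (Ideal (𝓞 K))) (hT : IsPrimeSet K T) :
    ∃ c : ℝ, RamificationLaw K 𝓑 (Proper 𝓑) (2 * k) T c := by
  obtain ⟨c, hc0, hc1, hc2⟩ := Pool.Agent.H419.TW.tow1 𝓑 (base_conv 𝓑 hB) k hk T hT
  refine ⟨c, hc0, ?_, hc2.trans ?_⟩
  · refine hc1.congr fun X => ?_
    rw [N_eq _ (2 * k) (by omega)]
    congr 3
    ext L
    simp only [Set.mem_ofPred_eq, mem_proper_iff]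
    rfl
  · constructor
    · rintro ⟨M, h1, h2, h3, h4, h5⟩
      exact ⟨M, (tower_iff 𝓑 M).2 h1, by omega, h3, (sparse_iff M _).2 h5⟩
    · rintro ⟨M, h1, h2, h3, h4⟩
      have h2' : Module.finrank K M = k := by omega
      have hfd : FiniteDimensional K M := FiniteDimensional.of_finrank_pos (by omega)
      have hnf : NumberField M := Pool.Agent.TH444.ML.nf_of_fd M
      exact ⟨M, (tower_iff 𝓑 M).1 h1, h2', h3, hnf, (sparse_iff M _).1 h4⟩

/-- towers -/
theorem towers {𝓑 : Set (IntermediateField K (AlgebraicClosure K))} (h : 𝓑 ∈ Bottoms K)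
    (k : ℕ) (hk : 0 < k) (T : Set (Ideal (𝓞 K))) (hT : IsPrimeSet K T) :
    ∃ c : ℝ, RamificationLaw K 𝓑 {L | Tower 𝓑 L} (2 * k) T c := by
  obtain ⟨c, h0, h1, h2⟩ := general 𝓑 (bottoms_conv h) k hk T hT
  refine ⟨c, h0, h1.congr fun X => ?_, h2⟩
  have e := N_tower h (fun L => L ∈ UnramifiedAt T) k hk X
  rw [← e]
  rfl

/-- towers above `K` are towers above `𝓑` -/
theorem tower_of_bot {𝓑 : Set (IntermediateField K (AlgebraicClosure K))} (h : 𝓑 ∈ Bottoms K)
    {L : IntermediateField K (AlgebraicClosure K)}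
    (hL : Pool.Agent.Q258.LQ.PTow ({⊥} : Set (IntermediateField K (AlgebraicClosure K))) L) :
    Tower 𝓑 L :=
  (tower_iff 𝓑 L).2 (Pool.Agent.H419.LT.PTow_mono (bottoms_bot h)
    ((Pool.Agent.Q258.LQ.sTow_iff {⊥} L).2 hL))

/-- the criterion holds for sparse sets -/
theorem crit_sparse {𝓑 : Set (IntermediateField K (AlgebraicClosure K))} (h : 𝓑 ∈ Bottoms K)
    (k : ℕ) (hk : 0 < k) (T : Set (Ideal (𝓞 K))) (hT : IsPrimeSet K T) (hs : IsSparse K T) :
    ∃ M : IntermediateField K (AlgebraicClosure K), Tower 𝓑 M ∧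
      2 * Module.finrank K M = 2 * k ∧ M ∈ UnramifiedAt T ∧ IsSparse M (PrimesAbove K M T) := by
  have hs' := (sparse_iff K T).1 hs
  obtain ⟨M, h1, h2, h3⟩ := Pool.Agent.H419.TW.exists_unr K (AlgebraicClosure K) T hT hs' k hk
  have hfd : FiniteDimensional K M := FiniteDimensional.of_finrank_pos (by omega)
  have hnf : NumberField M := Pool.Agent.TH444.ML.nf_of_fd M
  exact ⟨M, tower_of_bot h h1, by omega, h3,
    (sparse_iff M _).2 (Pool.Agent.H419.TW.sumAbove_of K M T hT hs')⟩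

/-- from a positive limit to a lower bound -/
theorem lower_of_lim (S : Set (IntermediateField K (AlgebraicClosure K))) (n : ℕ) (c : ℝ)
    (hc : 0 < c) (h : Tendsto (fun X : ℝ => (N S n X : ℝ) / X) atTop (nhds c)) :
    ∀ᶠ X : ℝ in atTop, c / 2 * X ≤ N S n X := by
  filter_upwards [h.eventually (lt_mem_nhds (half_lt_self hc)), eventually_gt_atTop (0 : ℝ)]
    with X h1 h2
  exact ((lt_div_iff₀ h2).1 h1).le

end

/-- **Linnik's asymptotic formula with ramification conditions at infinitely many primes.** Let `K` be a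
number field and `n ≥ 2` even.
1. For all sets `T` of primes of `K` and both families `𝓑` of bottom fields the number of the towers `L`
   above `𝓑` of degree `n` which are unramified at all `𝔭 ∈ T`, with `|d_L| ≤ X`, is `c X + o(X)`, and
   `c > 0` if and only if there is a tower `M` of degree `n / 2` above `𝓑` which is unramified at all
   `𝔭 ∈ T` and for which the sum of `1 / N 𝔓` over the primes `𝔓` of `M` above the primes in `T`
   converges. If `c > 0`, the number of ALL extensions of degree `n` of `K` which are unramified at all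
   `𝔭 ∈ T`, with `|d_L| ≤ X`, is at least `c' X` for large `X`, `c' > 0`.
2. If the sum of `1 / N 𝔭` over the `𝔭 ∈ T` converges, then `c > 0`; hence the lower bound `c' X` holds for
   all extensions of degree `n` which are unramified at all `𝔭 ∈ T`.
3. If `M / K` is a tower of degree `n / 2` and Galois, and `T` is the set of all primes which are
   unramified and not totally split in `M`, then `c > 0`; if `n ≥ 4`, the sum of `1 / N 𝔭` over the
   `𝔭 ∈ T` diverges. There are such `M`.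
4. The asymptotic formula and the criterion in 1 hold for the nontrivial solvable extensions of towers
   above any family `𝓑` of bottom fields such that, for every `m`, there are `O(X ^ θ)`, `θ < 3 / 2`,
   members of degree `m` with `|d| ≤ X`. -/
theorem result (K : Type) [Field K] [NumberField K] (n : ℕ) (hn : 2 ≤ n) (he : Even n) :
    (∀ T : Set (Ideal (𝓞 K)), IsPrimeSet K T → ∀ 𝓑 ∈ Bottoms K,
      ∃ c : ℝ, RamificationLaw K 𝓑 {L | Tower 𝓑 L} n T c ∧
        (0 < c → ∃ c' : ℝ, 0 < c' ∧ ∀ᶠ X : ℝ in atTop, c' * X ≤ N (UnramifiedAt T) n X) ∧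
        (IsSparse K T → 0 < c)) ∧
    (∀ T : Set (Ideal (𝓞 K)), IsPrimeSet K T → IsSparse K T →
      ∃ c' : ℝ, 0 < c' ∧ ∀ᶠ X : ℝ in atTop, c' * X ≤ N (UnramifiedAt T) n X) ∧
    ((∀ M : IntermediateField K (AlgebraicClosure K), Tower {⊥} M → IsGalois K M →
      2 * Module.finrank K M = n → (4 ≤ n → ¬ IsSparse K (NonSplit K M)) ∧
        (∀ 𝓑 ∈ Bottoms K, ∃ c : ℝ, 0 < c ∧
          RamificationLaw K 𝓑 {L | Tower 𝓑 L} n (NonSplit K M) c) ∧
        ∃ c' : ℝ, 0 < c' ∧ ∀ᶠ X : ℝ in atTop, c' * X ≤ N (UnramifiedAt (NonSplit K M)) n X) ∧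
      ∃ M : IntermediateField K (AlgebraicClosure K), Tower {⊥} M ∧ IsGalois K M ∧
        2 * Module.finrank K M = n) ∧
    (∀ 𝓑 : Set (IntermediateField K (AlgebraicClosure K)),
      (∀ m : ℕ, 0 < m → ∃ θ : ℝ, θ < 3 / 2 ∧ ∃ C : ℝ, ∀ X : ℝ, 1 ≤ X →
        (N 𝓑 m X : ℝ) ≤ C * X ^ θ) →
      ∀ T : Set (Ideal (𝓞 K)), IsPrimeSet K T →
        ∃ c : ℝ, RamificationLaw K 𝓑 (Proper 𝓑) n T c) := by
  obtain ⟨k, hk⟩ := he
  have hk0 : 0 < k := by omega
  obtain rfl : n = 2 * k := by omega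
  have hlow : ∀ (T : Set (Ideal (𝓞 K))) (𝓑 : Set (IntermediateField K (AlgebraicClosure K)))
      (c : ℝ), 0 < c → RamificationLaw K 𝓑 {L | Tower 𝓑 L} (2 * k) T c →
      ∃ c' : ℝ, 0 < c' ∧ ∀ᶠ X : ℝ in atTop, c' * X ≤ N (UnramifiedAt T) (2 * k) X := by
    intro T 𝓑 c hpos hc
    refine ⟨c / 2, by positivity, ?_⟩
    filter_upwards [lower_of_lim _ _ c hpos hc.2.1] with X hX
    refine hX.trans ?_
    exact_mod_cast N_mono {L | L ∈ {L | Tower 𝓑 L} ∧ L ∈ UnramifiedAt T} (UnramifiedAt T)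
      (fun L hL => hL.2) (2 * k) (by omega) X
  have hbot : ({⊥} : Set (IntermediateField K (AlgebraicClosure K))) ∈ Bottoms K := Or.inl rfl
  refine ⟨?_, ?_, ⟨?_, ?_⟩, ?_⟩
  · intro T hT 𝓑 h𝓑
    obtain ⟨c, hc⟩ := towers h𝓑 k hk0 T hT
    exact ⟨c, hc, fun hpos => hlow T 𝓑 c hpos hc, fun hs =>
      hc.2.2.2 (crit_sparse h𝓑 k hk0 T hT hs)⟩
  · intro T hT hs
    obtain ⟨c, hc⟩ := towers hbot k hk0 T hT
    exact hlow T {⊥} c (hc.2.2.2 (crit_sparse hbot k hk0 T hT hs)) hc
  · intro M hM hgal hdeg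
    have hdeg' : Module.finrank K M = k := by omega
    have hfd : FiniteDimensional K M := FiniteDimensional.of_finrank_pos (by omega)
    have hnf : NumberField M := Pool.Agent.TH444.ML.nf_of_fd M
    have hT : IsPrimeSet K (NonSplit K M) := fun 𝔭 h => h.1
    have hMu : M ∈ UnramifiedAt (NonSplit K M) := fun 𝔭 h => h.2.1
    have hMs : IsSparse M (PrimesAbove K M (NonSplit K M)) :=
      (sparse_iff M _).2 (Pool.Agent.H419.TW.ns_sum K M)
    have hP : Pool.Agent.Q258.LQ.PTow ({⊥} : Set (IntermediateField K (AlgebraicClosure K))) M :=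
      (Pool.Agent.Q258.LQ.sTow_iff {⊥} M).1 ((tower_iff {⊥} M).1 hM)
    have hlaw : ∀ 𝓑 ∈ Bottoms K, ∃ c : ℝ, 0 < c ∧
        RamificationLaw K 𝓑 {L | Tower 𝓑 L} (2 * k) (NonSplit K M) c := by
      intro 𝓑 h𝓑
      obtain ⟨c, hc⟩ := towers h𝓑 k hk0 (NonSplit K M) hT
      exact ⟨c, hc.2.2.2 ⟨M, tower_of_bot h𝓑 hP, hdeg, hMu, hMs⟩, hc⟩
    refine ⟨fun h4 hs => ?_, hlaw, ?_⟩
    · exact Pool.Agent.H419.TW.ns_div K M (by omega) ((sparse_iff K _).1 hs)
    · obtain ⟨c, hpos, hc⟩ := hlaw {⊥} hbot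
      exact hlow _ _ c hpos hc
  · obtain ⟨M, h1, h2, h3, h4⟩ := Pool.Agent.H419.TW.exists_galois K (AlgebraicClosure K) k hk0
    exact ⟨M, tower_of_bot hbot h4, h2.toIsGalois, by omega⟩
  · intro 𝓑 hB T hT
    exact general 𝓑 hB k hk0 T hT

end Pool.Agent.Results.MP_bf81c2_nt.SparseRamification
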